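import Pool.Agent.Y813.RL.Stm

set_option autoImplicit false

/-!
# Sub-statements for the project on reflective lattices of signature (2,22) (MP_f1d0b6_nt)

Every `S_...` is a `Prop`; a job is to prove `theorem ... : S_...` in a module of your own. The
statements `JobTheta1`, `JobTheta2`, `JobFinFour`, `JobVV`, `JobODE`, `JobGenus` are in
`Pool.Agent.Y813.RL.Stm`.
-/

open UpperHalfPlane

namespace Pool.Agent.Q248.RL

open Pool.Agent.Y813.RL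

noncomputable section

/-! ### Parts of `JobODE` -/

/-- the operator `u ↦ ϑ_{-8} ϑ_{-10} u - E_4 u / 18`, where `ϑ_k` is the Serre derivative -/
def Lop (u : ℂ → ℂ) (z : ℍ) : ℂ :=
  Derivative.serreDerivative (-8) (Derivative.serreDerivative (-10) (fun w : ℍ => u (w : ℂ))) z
    - (1 / 18) * ModularForm.E₄ z * u (z : ℂ)

/-- ODE1: the differential equation. (Use `JobVV` with `w = 6` and `JobFinFour`.) -/
def S_ODE1 : Prop := ∀ (G : Matrix (Fin 20) (Fin 20) ℤ) (R : Finset (Fin 20 → ℤ))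
  (f : (Fin 20 → ℤ) → ℂ → ℂ), PosSymm G → (∀ i, Even (G i i)) → IsReps G R → VV10 G R f →
  (∀ μ, ∃ C : ℝ, ∀ τ : ℂ, 1 / 2 ≤ τ.im → ‖f μ τ‖ ≤ C * Real.exp (2 * Real.pi * τ.im)) →
  (∀ μ, (¬ ∃ v : Fin 20 → ℤ, μ = G.mulVec v) →
    ∃ C : ℝ, ∀ τ : ℂ, 1 / 2 ≤ τ.im → ‖f μ τ‖ ≤ C * Real.exp (Real.pi * τ.im)) →
  ∀ (μ : Fin 20 → ℤ) (z : ℍ), Lop (f μ) z = 0

/-- ODE2A: solutions whose exponent is not in `1/2 + ℤ` and which grow at most like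
`|q|^(-1/2)` vanish. -/
def S_ODE2A : Prop := ∀ (θ C : ℝ) (u : ℂ → ℂ), DifferentiableOn ℂ u {τ | 0 < τ.im} →
  (∀ τ : ℂ, 0 < τ.im → u (τ + 1) = ee (-(θ : ℂ)) * u τ) → (∀ z : ℍ, Lop u z = 0) →
  (∀ τ : ℂ, 1 / 2 ≤ τ.im → ‖u τ‖ ≤ C * Real.exp (Real.pi * τ.im)) →
  (¬ ∃ k : ℤ, θ = k + 1 / 2) → ∀ τ : ℂ, 0 < τ.im → u τ = 0

/-- ODE2B: two solutions with exponent in `1/2 + ℤ` which grow at most like `|q|^(-1/2)` are
linearly dependent. -/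
def S_ODE2B : Prop := ∀ (C : ℝ) (u v : ℂ → ℂ), DifferentiableOn ℂ u {τ | 0 < τ.im} →
  DifferentiableOn ℂ v {τ | 0 < τ.im} →
  (∀ τ : ℂ, 0 < τ.im → u (τ + 1) = -u τ) → (∀ τ : ℂ, 0 < τ.im → v (τ + 1) = -v τ) →
  (∀ z : ℍ, Lop u z = 0) → (∀ z : ℍ, Lop v z = 0) →
  (∀ τ : ℂ, 1 / 2 ≤ τ.im → ‖u τ‖ ≤ C * Real.exp (Real.pi * τ.im)) →
  (∀ τ : ℂ, 1 / 2 ≤ τ.im → ‖v τ‖ ≤ C * Real.exp (Real.pi * τ.im)) →
  ∃ a b : ℂ, (a ≠ 0 ∨ b ≠ 0) ∧ ∀ τ : ℂ, 0 < τ.im → a * u τ + b * v τ = 0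

/-! ### Parts of `JobGenus` -/

/-- The two forms are isometric over the ring `R`. -/
def IsoOver (R : Type) [CommRing R] {ι κ : Type} [Fintype ι] [Fintype κ]
    (B : Matrix ι ι ℤ) (C : Matrix κ κ ℤ) : Prop :=
  ∃ e : (ι → R) ≃ₗ[R] (κ → R), ∀ x y, bf C (e x) (e y) = bf B x y

/-- The condition on the discriminant form: `B⁻¹[μ]` is an odd integer for all integral `μ`
outside of the image of `B`; here `det B = 4`, so that the adjugate of `B` is `4 B⁻¹`. -/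
def QF {ι : Type} [Fintype ι] [DecidableEq ι] (B : Matrix ι ι ℤ) : Prop :=
  B.det = 4 ∧ ∀ μ : ι → ℤ, (∃ v : ι → ℤ, μ = B.mulVec v) ∨ ∃ k : ℤ, bf B.adjugate μ μ = 8 * k + 4

/-- GENUS-DET: the determinant is 4. -/
def S_Det : Prop := ∀ (G : Matrix (Fin 20) (Fin 20) ℤ), PosSymm G → (∀ i, Even (G i i)) →
  (∀ μ, (¬ ∃ v : Fin 20 → ℤ, μ = G.mulVec v) → ∃ k : ℤ, bd G μ μ = 2 * k + 1) → G.det ≠ 1 → QF G

/-- GENUS-REAL: positive definite real forms of the same rank are isometric. -/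
def S_Real : Prop := ∀ (ι κ : Type) [Fintype ι] [Fintype κ] (B : Matrix ι ι ℤ) (C : Matrix κ κ ℤ),
  Fintype.card ι = Fintype.card κ → B.IsSymm → C.IsSymm →
  (∀ x : ι → ℝ, x ≠ 0 → 0 < bf B x x) → (∀ x : κ → ℝ, x ≠ 0 → 0 < bf C x x) → IsoOver ℝ B C

/-- GENUS-ODD: unimodular forms over `ℤ_p`, `p` odd, of the same rank and determinant are
isometric. -/
def S_Odd : Prop := ∀ (p : ℕ) [Fact p.Prime], p ≠ 2 →
  ∀ (ι κ : Type) [Fintype ι] [DecidableEq ι] [Fintype κ] [DecidableEq κ]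
    (B : Matrix ι ι ℤ) (C : Matrix κ κ ℤ),
  Fintype.card ι = Fintype.card κ → B.IsSymm → C.IsSymm → B.det = C.det → ¬ (p : ℤ) ∣ B.det →
  IsoOver ℤ_[p] B C

/-- GENUS-TWO: the case `p = 2`. -/
def S_Two : Prop := ∀ (ι κ : Type) [Fintype ι] [DecidableEq ι] [Fintype κ] [DecidableEq κ]
    (B : Matrix ι ι ℤ) (C : Matrix κ κ ℤ),
  Fintype.card ι = Fintype.card κ → B.IsSymm → C.IsSymm → (∀ i, Even (B i i)) →
  (∀ i, Even (C i i)) → QF B → QF C → IsoOver ℤ_[2] B C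

/-- GENUS-EED: the facts on the root lattice `2E_8 + D_4`. -/
def S_EED : Prop := gramEED.IsSymm ∧ (∀ i, Even (gramEED i i)) ∧
  (∀ x : Fin 8 ⊕ (Fin 8 ⊕ Fin 4) → ℝ, x ≠ 0 → 0 < bf gramEED x x) ∧ QF gramEED

end

end Pool.Agent.Q248.RL
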