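import Pool.Agent.Q248.RL.Stm3

set_option autoImplicit false

/-!
# Slices and zero-free regions
-/

namespace Pool.Agent.Q248.RL

open Complex Set Finset Topology Pool.Agent.Y813.RL Pool.Agent.Y683.RL

noncomputable section

variable {G : Matrix (Fin 20) (Fin 20) ℤ}

theorem sl_mem (x y : Fin 20 → ℝ) {τ : ℂ} (hτ : 0 < τ.im) : sl x y τ ∈ UP := hτ

theorem imv_sl (x y : Fin 20 → ℝ) (τ : ℂ) : imv (sl x y τ).2 = τ.im • x := by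
  funext i
  simp [imv, sl, Complex.mul_im]

theorem xp_sl (x y : Fin 20 → ℝ) {τ : ℂ} (hτ : 0 < τ.im) : xp (sl x y τ) = x := by
  unfold xp
  rw [imv_sl]
  show (τ.im)⁻¹ • τ.im • x = x
  rw [smul_smul, inv_mul_cancel₀ hτ.ne', one_smul]

theorem bh_sl (x y : Fin 20 → ℝ) {τ : ℂ} (hτ : 0 < τ.im) :
    bh G (sl x y τ) = τ.im * (bf G x x / 2) := by
  rw [bh_eq (sl_mem x y hτ), xp_sl x y hτ]
  rfl

theorem ht_sl (x y : Fin 20 → ℝ) {τ : ℂ} (hτ : 0 < τ.im) (ω : ℂ) :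
    ht G (ω, sl x y τ) = ω.im / τ.im - bf G x x / 2 := by
  unfold ht
  rw [xp_sl x y hτ]
  rfl

theorem ht_sl_lt (x y : Fin 20 → ℝ) {τ : ℂ} (hτ : 0 < τ.im) {ω : ℂ} {θ : ℝ} :
    τ.im * (θ + bf G x x / 2) < ω.im ↔ θ < ht G (ω, sl x y τ) := by
  rw [ht_sl x y hτ, lt_sub_iff_add_lt, lt_div_iff₀ hτ, mul_comm]

theorem mem_Hd_sl (x y : Fin 20 → ℝ) {τ : ℂ} (hτ : 0 < τ.im) {ω : ℂ} :
    (ω, sl x y τ) ∈ Hd G ↔ 0 < ht G (ω, sl x y τ) := by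
  rw [← ht_sl_lt x y hτ, zero_add, ← bh_sl (G := G) x y hτ]
  exact ⟨fun h => h.2, fun h => ⟨hτ, h⟩⟩

/-- generic slices avoid the mirrors -/
theorem sl_not_mir {Q : ℕ} (hQ : ∀ μ : Fin 20 → ℤ, bd G μ μ ≤ 2 → ∀ i, |μ i| ≤ Q)
    {x : Fin 20 → ℝ} (hx : Gn Q x) (y : Fin 20 → ℝ) {τ : ℂ} (hτ : 0 < τ.im) :
    sl x y τ ∉ Mir G := by
  rw [not_mir (sl_mem x y hτ)]
  intro μ h0 h2
  left
  rw [xp_sl x y hτ]
  have hμ0 : μ ≠ 0 := by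
    rintro rfl
    rw [bd_zero] at h0
    exact lt_irrefl _ h0
  exact hx μ hμ0 (hQ μ h2)

/-- an active wall: `F` vanishes identically on it -/
def Act (G : Matrix (Fin 20) (Fin 20) ℤ) (F : TP → ℂ) (b m n : ℤ) (μ : Fin 20 → ℤ) : Prop :=
  m ≠ 0 ∧ WallData G 0 b m n μ ∧ WD G 0 b m n μ ∧ ∀ W ∈ Hd G, WEq G 0 b m n μ W → F W = 0

/-- the strong form of the condition on the zeros -/
def ZS (G : Matrix (Fin 20) (Fin 20) ℤ) (F : TP → ℂ) : Prop :=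
  ∀ W ∈ Hd G, F W = 0 → ∃ (a b m n : ℤ) (μ : Fin 20 → ℤ), WallData G a b m n μ ∧
    WD G a b m n μ ∧ WEq G a b m n μ W

/-- zeros on slices lie on active walls -/
theorem zero_act (hPR : S_PR) (h : PosSymm G) {k : ℤ} {F : TP → ℂ} (hF : TubeForm G k F)
    (hZ : ZS G F) {Q : ℕ} (hQ : ∀ μ : Fin 20 → ℤ, bd G μ μ ≤ 2 → ∀ i, |μ i| ≤ Q)
    {x : Fin 20 → ℝ} (hx : Gn Q x) (y : Fin 20 → ℝ) {τ ω : ℂ} {θ : ℝ} (hθ : 0 < θ)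
    (hτ : 1 + 1 / θ ≤ τ.im) (hω : τ.im * (θ + bf G x x / 2) < ω.im) (hF0 : F (ω, sl x y τ) = 0) :
    ∃ b m n μ, Act G F b m n μ ∧ WEq G 0 b m n μ (ω, sl x y τ) ∧
      nu G 0 b m n μ = (m : ℝ) ^ 2 * ht G (ω, sl x y τ) +
        bf G (lam G μ + (m : ℝ) • x) (lam G μ + (m : ℝ) • x) / 2 := by
  have hθ' : 0 < 1 / θ := by positivity
  have hτ0 : 0 < τ.im := by linarith
  have hht := (ht_sl_lt (G := G) x y hτ0).1 hω
  have hW : (ω, sl x y τ) ∈ Hd G := (mem_Hd_sl x y hτ0).2 (hθ.trans hht)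
  have h1 : 1 < ((ω, sl x y τ) : TP).2.1.im ^ 2 * ht G (ω, sl x y τ) := by
    show 1 < τ.im ^ 2 * _
    have h2 : 1 < τ.im := by linarith
    have h3 : 1 / θ < τ.im := by linarith
    rw [div_lt_iff₀ hθ] at h3
    nlinarith [mul_lt_mul_of_pos_left hht (pow_pos hτ0 2)]
  obtain ⟨b, m, n, μ, hm, hw, hwd, he, hv⟩ :=
    hPR G k F h hF hZ _ hW hF0 (sl_not_mir hQ hx y hτ0) h1
  refine ⟨b, m, n, μ, ⟨hm, hw, hwd, hv⟩, he, ?_⟩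
  have h4 := height_id h (W := (ω, sl x y τ)) hτ0 he
  simp only [xp_sl x y hτ0] at h4
  exact h4

/-- zero-free regions from bounds on the active walls -/
theorem zf_of (hPR : S_PR) (h : PosSymm G) {k : ℤ} {F : TP → ℂ} (hF : TubeForm G k F)
    (hZ : ZS G F) {Q : ℕ} (hQ : ∀ μ : Fin 20 → ℤ, bd G μ μ ≤ 2 → ∀ i, |μ i| ≤ Q)
    {x : Fin 20 → ℝ} (hx : Gn Q x) {θ : ℝ} (hθ : 0 < θ)
    (hH : ∀ b m n μ, Act G F b m n μ → nu G 0 b m n μ -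
      bf G (lam G μ + (m : ℝ) • x) (lam G μ + (m : ℝ) • x) / 2 ≤ θ * (m : ℝ) ^ 2) :
    ZF G F θ x := by
  refine ⟨1 + 1 / θ, fun y τ ω hτ hω hF0 => ?_⟩
  obtain ⟨b, m, n, μ, ha, he, hn⟩ := zero_act hPR h hF hZ hQ hx y hθ hτ hω hF0
  have h1 := hH b m n μ ha
  have hθ' : 0 < 1 / θ := by positivity
  have hτ0 : 0 < τ.im := by linarith
  have hht := (ht_sl_lt (G := G) x y hτ0).1 hω
  have hm : (0 : ℝ) < (m : ℝ) ^ 2 := by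
    have : (m : ℝ) ≠ 0 := by exact_mod_cast ha.1
    positivity
  rw [hn] at h1
  have h2 := mul_lt_mul_of_pos_left hht hm
  linarith

theorem one_le_sq {m : ℤ} (hm : m ≠ 0) : (1 : ℝ) ≤ (m : ℝ) ^ 2 := by
  have : (1 : ℤ) ≤ m ^ 2 := by
    have := Int.one_le_abs hm
    nlinarith [sq_abs m]
  exact_mod_cast this

/-- no zeros above height one -/
theorem zf_one (hPR : S_PR) (h : PosSymm G) {k : ℤ} {F : TP → ℂ} (hF : TubeForm G k F)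
    (hZ : ZS G F) {Q : ℕ} (hQ : ∀ μ : Fin 20 → ℤ, bd G μ μ ≤ 2 → ∀ i, |μ i| ≤ Q)
    {x : Fin 20 → ℝ} (hx : Gn Q x) : ZF G F 1 x := by
  apply zf_of hPR h hF hZ hQ hx one_pos
  intro b m n μ ha
  have h1 := (nu_le_one ha.2.1).2
  have h2 := one_le_sq ha.1
  have h3 := h.nonneg (lam G μ + (m : ℝ) • x)
  linarith

/-- growth on generic slices from zero-free regions -/
theorem grw_of (hGR : S_GR) (h : PosSymm G) {k : ℤ} {F : TP → ℂ}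
    {φ : ℕ → ℂ × (Fin 20 → ℂ) → ℂ} {C m : ℕ} {c : ℂ → (Fin 20 → ℂ) → ℂ}
    (H : CM G k F φ C m) (hc : ∀ τ z, 0 < τ.im → φ (C + m) (τ, z) = φ C (τ, z) * c τ z)
    {Q : ℕ} (hQ : ∀ μ : Fin 20 → ℤ, bd G μ μ ≤ 2 → ∀ i, |μ i| ≤ Q) {X : Fin 20 → ℤ} {N : ℕ}
    (hN : 0 < N) (hx : Gn Q (xr X N)) {θ : ℝ} (hθ : 0 < θ) (hZF : ZF G F θ (xr X N))
    (y : Fin 20 → ℝ) : Grw G c m θ (xr X N) y :=
  hGR G k F φ C m c h H hc X N y θ hN hθ hZF fun _ hτ => sl_not_mir hQ hx y hτ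

end

end Pool.Agent.Q248.RL
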