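import Pool.Agent.Y813.RL.Tube5

set_option autoImplicit false

/-!
# The walls of reflective vectors, with arithmetic information
-/

namespace Pool.Agent.Q248.RL

open Complex Set Finset Pool.Agent.Y813.Refl Pool.Agent.Y813.RL

noncomputable section

variable {G : Matrix (Fin 20) (Fin 20) ℤ}

/-- the arithmetic information on a wall: `ν = t / (2 d)` with `t = 1, 2` and `d μ` in the image
of `G` -/
def WD (G : Matrix (Fin 20) (Fin 20) ℤ) (a b m n : ℤ) (μ : Fin 20 → ℤ) : Prop :=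
  ∃ d t : ℤ, 0 < d ∧ (t = 1 ∨ t = 2) ∧ (bd G μ μ / 2 - a * b - m * n) * (2 * d) = t ∧
    ∃ v : Fin 20 → ℤ, ∀ i, d * μ i = G.mulVec v i

/-- **Walls**, with the arithmetic information on the norm -/
theorem wall_of_reflective' (h : PosSymm G) (he : ∀ i, Even (G i i)) {v : Fin 4 ⊕ Fin 20 → ℤ}
    (hv : IsReflective (gramM G) v) {W : TP}
    (hW : bf (gramM G) (fun i => (v i : ℂ)) (ZW G W) = 0) :
    ∃ (a b m n : ℤ) (μ : Fin 20 → ℤ), WallData G a b m n μ ∧ WD G a b m n μ ∧
    (a : ℂ) * (bf G W.2.2 W.2.2 / 2 - W.1 * W.2.1) + b + m * W.1 + n * W.2.1 + dt μ W.2.2 = 0 := by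
  have hMs := gramM_symm h.symm
  set w : Fin 4 ⊕ Fin 20 → ℤ := act (gramM G) v with hw
  have hneg : bf (gramM G) v v < 0 := hv.2.1
  have hvv : bf (gramM G) v v = ∑ i, v i * w i := bf_eq_act _ _ _
  set d : ℤ := Finset.univ.gcd w with hd
  have hdn : normalize d = d := Finset.normalize_gcd
  have hd0 : d ≠ 0 := by
    intro h0
    rw [hd, Finset.gcd_eq_zero_iff] at h0
    rw [hvv, Finset.sum_eq_zero (fun i _ => by rw [h0 i (Finset.mem_univ i)]; ring)] at hneg
    exact lt_irrefl _ hneg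
  have hdpos : 0 < d := by
    have : 0 ≤ d := Int.nonneg_of_normalize_eq_self hdn
    omega
  have hdw : ∀ i, d ∣ w i := fun i => Finset.gcd_dvd (Finset.mem_univ i)
  choose w0 hw0 using hdw
  -- the wall equation
  have hS : ∑ i, (w0 i : ℂ) * ZW G W i = 0 := by
    have h1 : bf (gramM G) (fun i => (v i : ℂ)) (ZW G W) = ∑ i, (w i : ℂ) * ZW G W i := by
      rw [bf_comm hMs, bf_eq_act]
      refine Finset.sum_congr rfl fun i _ => ?_
      rw [act_cast]
      ring
    rw [h1] at hW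
    have h2 : ∑ i, (w i : ℂ) * ZW G W i = (d : ℂ) * ∑ i, (w0 i : ℂ) * ZW G W i := by
      rw [Finset.mul_sum]
      refine Finset.sum_congr rfl fun i _ => ?_
      rw [hw0 i]
      push_cast
      ring
    rw [h2] at hW
    rcases mul_eq_zero.1 hW with h3 | h3
    · exact absurd (by exact_mod_cast h3) hd0
    · exact h3
  -- s = -(v,v) = d * t, t | 2
  have hdvd1 : d ∣ bf (gramM G) v v := by
    rw [hvv]
    exact Finset.dvd_sum fun i _ => (Finset.gcd_dvd (Finset.mem_univ i)).mul_left _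
  have hdvd2 : bf (gramM G) v v ∣ 2 * d := by
    have h1 : ∀ i, bf (gramM G) v v ∣ 2 * w i := by
      intro i
      have := reflective_dvd hv (Pi.single i 1)
      have h3 : bf (gramM G) (Pi.single i 1) v = w i := by
        rw [bf_eq_act]
        simp [Pi.single_apply, hw]
      rwa [h3] at this
    have h2 : bf (gramM G) v v ∣ Finset.univ.gcd fun i => 2 * w i :=
      Finset.dvd_gcd fun i _ => h1 i
    rw [Finset.gcd_mul_left, show normalize (2 : ℤ) = 2 from rfl] at h2
    exact h2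
  obtain ⟨t, ht⟩ := hdvd1
  have ht2 : -t ∣ 2 := by
    rw [ht] at hdvd2
    obtain ⟨c, hc⟩ := hdvd2
    refine ⟨-c, ?_⟩
    have : d * 2 = d * (t * c) := by linarith
    have := mul_left_cancel₀ hd0 this
    linarith
  have htneg : 0 < -t := by
    rw [ht] at hneg
    nlinarith
  have ht12 : -t = 1 ∨ -t = 2 := by
    have := Int.le_of_dvd (by norm_num) ht2
    omega
  -- coordinates of w
  have cw : w = Y813.RL.mk (v (.inl 1)) (v (.inl 0)) (v (.inl 3)) (v (.inl 2))
      (fun i => -(G.mulVec (fun j => v (.inr j))) i) := by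
    funext i
    rcases i with i | i
    · match i with
      | 0 => simp [hw, act, Y813.RL.mk, gramM, gramUU, Fintype.sum_sum_type, Fin.sum_univ_four]
      | 1 => simp [hw, act, Y813.RL.mk, gramM, gramUU, Fintype.sum_sum_type, Fin.sum_univ_four]
      | 2 => simp [hw, act, Y813.RL.mk, gramM, gramUU, Fintype.sum_sum_type, Fin.sum_univ_four]
      | 3 => simp [hw, act, Y813.RL.mk, gramM, gramUU, Fintype.sum_sum_type, Fin.sum_univ_four]
    · simp [hw, act, Y813.RL.mk, gramM, Fintype.sum_sum_type, Matrix.mulVec, dotProduct]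
  have c0 : d * w0 (.inl 0) = v (.inl 1) := by rw [← hw0, cw]; rfl
  have c1 : d * w0 (.inl 1) = v (.inl 0) := by rw [← hw0, cw]; rfl
  have c2 : d * w0 (.inl 2) = v (.inl 3) := by rw [← hw0, cw]; rfl
  have c3 : d * w0 (.inl 3) = v (.inl 2) := by rw [← hw0, cw]; rfl
  have cz : ∀ i, d * w0 (.inr i) = G.mulVec (fun j => -v (.inr j)) i := by
    intro i
    rw [← hw0, cw]
    simp [Y813.RL.mk, Matrix.mulVec, dotProduct]
  have hbd := bd_of_smul h cz
  have hvv2 : bf (gramM G) v v = 2 * (v (.inl 0) * v (.inl 1)) + 2 * (v (.inl 2) * v (.inl 3)) -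
      bf G (fun j => -v (.inr j)) (fun j => -v (.inr j)) := by
    conv_lhs => rw [mk_eta v]
    rw [bf_mk]
    have : bf G (fun j => -v (.inr j)) (fun j => -v (.inr j)) =
        bf G (fun j => v (.inr j)) (fun j => v (.inr j)) := by
      have : (fun j => -v (.inr j)) = -(fun j : Fin 20 => v (.inr j)) := rfl
      rw [this, bf_neg_left, bf_neg_right, neg_neg]
    rw [this]
    ring
  have hdR : (d : ℝ) ≠ 0 := by exact_mod_cast hd0
  have hν : (bd G (fun i => w0 (.inr i)) (fun i => w0 (.inr i)) / 2 -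
      (w0 (.inl 1) : ℝ) * (w0 (.inl 0) : ℝ) - (w0 (.inl 2) : ℝ) * (w0 (.inl 3) : ℝ)) * (2 * d) =
      ((-t : ℤ) : ℝ) := by
    have e0 : ((d * w0 (.inl 0) : ℤ) : ℝ) = v (.inl 1) := by rw [c0]
    have e1 : ((d * w0 (.inl 1) : ℤ) : ℝ) = v (.inl 0) := by rw [c1]
    have e2 : ((d * w0 (.inl 2) : ℤ) : ℝ) = v (.inl 3) := by rw [c2]
    have e3 : ((d * w0 (.inl 3) : ℤ) : ℝ) = v (.inl 2) := by rw [c3]
    push_cast at e0 e1 e2 e3
    have e4 : ((bf (gramM G) v v : ℤ) : ℝ) = d * t := by rw [ht]; push_cast; ring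
    rw [hvv2] at e4
    push_cast at e4
    rw [← hbd, ← e0, ← e1, ← e2, ← e3] at e4
    push_cast
    have : (d : ℝ) * ((bd G (fun i => w0 (.inr i)) (fun i => w0 (.inr i)) / 2 -
      (w0 (.inl 1) : ℝ) * (w0 (.inl 0) : ℝ) - (w0 (.inl 2) : ℝ) * (w0 (.inl 3) : ℝ)) * (2 * d)) =
      d * (-t) := by linarith
    exact mul_left_cancel₀ hdR this
  refine ⟨w0 (.inl 1), w0 (.inl 0), w0 (.inl 2), w0 (.inl 3), fun i => w0 (.inr i), ?_,
    ⟨d, -t, hdpos, ht12, hν, _, cz⟩, ?_⟩
  · unfold WallData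
    set ν := bd G (fun i => w0 (.inr i)) (fun i => w0 (.inr i)) / 2 -
      (w0 (.inl 1) : ℝ) * (w0 (.inl 0) : ℝ) - (w0 (.inl 2) : ℝ) * (w0 (.inl 3) : ℝ) with hνdef
    rcases eq_or_lt_of_le (show 1 ≤ d by omega) with hd1 | hd1
    · left
      -- d = 1, the norm is even so t = -2
      have hev := even_bf hMs (gramM_even he) v
      obtain ⟨N, hN⟩ := hev
      have : -t = 2 := by
        rw [← hd1] at ht
        rcases ht12 with h1 | h1
        · omega
        · exact h1
      refine ⟨?_, fun j => -v (.inr j), ?_⟩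
      · rw [this, ← hd1] at hν
        push_cast at hν
        linarith
      · funext i
        have := cz i
        rw [← hd1, one_mul] at this
        exact this
    · right
      have hd2 : (2 : ℝ) ≤ d := by exact_mod_cast (show (2 : ℤ) ≤ d by omega)
      have ht1 : (1 : ℝ) ≤ ((-t : ℤ) : ℝ) := by exact_mod_cast (show (1 : ℤ) ≤ -t by omega)
      have ht2' : ((-t : ℤ) : ℝ) ≤ 2 := by exact_mod_cast (show -t ≤ (2 : ℤ) by omega)
      have hνpos : 0 < ν := by
        by_contra hc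
        push Not at hc
        nlinarith
      exact ⟨hνpos, by nlinarith⟩
  · have h1 : ∑ i, (w0 i : ℂ) * ZW G W i = w0 (.inl 0) * 1 +
        w0 (.inl 1) * (bf G W.2.2 W.2.2 / 2 - W.1 * W.2.1) + w0 (.inl 2) * W.1 +
        w0 (.inl 3) * W.2.1 + ∑ i, (w0 (.inr i) : ℂ) * W.2.2 i := by
      rw [Fintype.sum_sum_type, Fin.sum_univ_four]
      rfl
    rw [h1] at hS
    unfold dt
    linear_combination hS

end

end Pool.Agent.Q248.RL
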