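import Pool.Agent.Y813.RL.Per
import Pool.Agent.Q248.RL.Wal

set_option autoImplicit false

/-!
# Sub-statements for the growth analysis of the Jacobi form (MP_f1d0b6_nt)
-/

namespace Pool.Agent.Q248.RL

open Complex Set Finset Topology Pool.Agent.Y813.RL Pool.Agent.Y683.RL

noncomputable section

/-- the slice in direction `x` through `y` -/
def sl (x y : Fin 20 → ℝ) (τ : ℂ) : ℂ × (Fin 20 → ℂ) := (τ, fun i => τ * (x i : ℂ) + (y i : ℂ))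

/-- no zeros above height `θ` on the slices in direction `x` -/
def ZF (G : Matrix (Fin 20) (Fin 20) ℤ) (F : TP → ℂ) (θ : ℝ) (x : Fin 20 → ℝ) : Prop :=
  ∃ T₀ : ℝ, ∀ (y : Fin 20 → ℝ) (τ ω : ℂ), T₀ ≤ τ.im → τ.im * (θ + bf G x x / 2) < ω.im →
    F (ω, sl x y τ) ≠ 0

/-- `x` is generic with respect to integral vectors of size at most `Q` -/
def Gn (Q : ℕ) (x : Fin 20 → ℝ) : Prop :=
  ∀ ν : Fin 20 → ℤ, ν ≠ 0 → (∀ i, |ν i| ≤ Q) → ∀ k : ℤ, dt ν x ≠ k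

/-- growth of `c` on the slices -/
def Grw (G : Matrix (Fin 20) (Fin 20) ℤ) (c : ℂ → (Fin 20 → ℂ) → ℂ) (m : ℕ) (θ : ℝ)
    (x y : Fin 20 → ℝ) : Prop :=
  ∃ K T₁ : ℝ, ∀ τ : ℂ, T₁ ≤ τ.im →
    ‖c τ (sl x y τ).2‖ ≤ K * (1 + τ.im) ^ 2 *
      Real.exp (2 * Real.pi * m * (θ + bf G x x / 2) * τ.im)

/-- GR: growth of the quotient from the absence of zeros. -/
def S_GR : Prop := ∀ (G : Matrix (Fin 20) (Fin 20) ℤ) (k : ℤ) (F : TP → ℂ)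
  (φ : ℕ → ℂ × (Fin 20 → ℂ) → ℂ) (C m : ℕ) (c : ℂ → (Fin 20 → ℂ) → ℂ), PosSymm G →
  CM G k F φ C m → (∀ τ z, 0 < τ.im → φ (C + m) (τ, z) = φ C (τ, z) * c τ z) →
  ∀ (X : Fin 20 → ℤ) (N : ℕ) (y : Fin 20 → ℝ) (θ : ℝ), 0 < N → 0 < θ → ZF G F θ (xr X N) →
  (∀ τ : ℂ, 0 < τ.im → sl (xr X N) y τ ∉ Mir G) → Grw G c m θ (xr X N) y

/-- FV: vanishing of the Fourier coefficients of `c` from the growth on slices in directions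
close to `-λ / m`, where `λ` is the dual vector with coordinates `μ`. -/
def S_FV : Prop := ∀ (G : Matrix (Fin 20) (Fin 20) ℤ) (m : ℕ) (c : ℂ → (Fin 20 → ℂ) → ℂ),
  PosSymm G → 0 < m → JacobiZero ((m : ℤ) • G) c →
  ∀ (μ : Fin 20 → ℤ) (n : ℤ) (θ : ℝ) (O : Set (Fin 20 → ℝ)) (Q : ℕ), IsOpen O →
  (-(1 / (m : ℝ))) • lam G μ ∈ O →
  (∀ (X : Fin 20 → ℤ) (N : ℕ), 0 < N → xr X N ∈ O → Gn Q (xr X N) →
    ∀ y : Fin 20 → ℝ, Grw G c m θ (xr X N) y) →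
  (n : ℝ) < bd G μ μ / (2 * m) - m * θ → fco 0 (fc c μ) n = 0

/-- PR: zeros of `F` high up and off the mirrors lie on walls on which `F` vanishes
identically. -/
def S_PR : Prop := ∀ (G : Matrix (Fin 20) (Fin 20) ℤ) (k : ℤ) (F : TP → ℂ), PosSymm G →
  TubeForm G k F →
  (∀ W ∈ Hd G, F W = 0 → ∃ (a b m n : ℤ) (μ : Fin 20 → ℤ), WallData G a b m n μ ∧
    WD G a b m n μ ∧ WEq G a b m n μ W) →
  ∀ W₀ ∈ Hd G, F W₀ = 0 → W₀.2 ∉ Mir G → 1 < W₀.2.1.im ^ 2 * ht G W₀ →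
    ∃ (b m n : ℤ) (μ : Fin 20 → ℤ), m ≠ 0 ∧ WallData G 0 b m n μ ∧ WD G 0 b m n μ ∧
      WEq G 0 b m n μ W₀ ∧ ∀ W ∈ Hd G, WEq G 0 b m n μ W → F W = 0

end

end Pool.Agent.Q248.RL
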