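import Pool.Agent.Q248.RL.One
import Pool.Agent.Q248.RL.TF
import Pool.Agent.Y813.RL.Comp
import Pool.Agent.Y155.RL.VD
import Pool.Agent.Y155.RL.DIV
import Pool.Agent.Y683.RL.Kd
import Pool.Agent.Y683.RL.Fj
import Pool.Agent.H140.RL.Theta1b
import Pool.Agent.Q98.RL.Theta2
import Pool.Agent.Q98.RL.Ode2
import Pool.Agent.Q98.RL.Real
import Pool.Agent.Q275.RL.FinFour
import Pool.Agent.Q275.RL.Det
import Pool.Agent.Q275.RL.PR
import Pool.Agent.Q176.RL.VV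
import Pool.Agent.Q176.RL.GR
import Pool.Agent.Q285.RL.Ode1
import Pool.Agent.Q175.RL.Ode
import Pool.Agent.Q175.RL.Eed
import Pool.Agent.Q296.RL.Odd
import Pool.Agent.Q296.RL.Fv
import Pool.Agent.Q177.RL.Two2

set_option autoImplicit false

/-!
# Reflective lattices of signature (2,22): the assembly
-/

namespace Pool.Agent.Q248.RL

open Complex Set Finset Topology Pool.Agent.Y813.RL Pool.Agent.Y813.Refl

noncomputable section

variable {G : Matrix (Fin 20) (Fin 20) ℤ}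

/-- **the discriminant form** -/
theorem disc_form (h : PosSymm G) (he : ∀ i, Even (G i i)) {k : ℤ} {F : TP → ℂ}
    (hF : TubeForm G k F) (hZ : ZS G F) :
    (∀ μ, (¬ ∃ v : Fin 20 → ℤ, μ = G.mulVec v) → ∃ k : ℤ, bd G μ μ = 2 * k + 1) ∧ G.det ≠ 1 := by
  have hKD := Pool.Agent.Y683.RL.jobKD
  have hFJ := Pool.Agent.Y683.RL.jobFJ
  have hBC := Pool.Agent.Y155.RL.bc
  have hDIV := Pool.Agent.Y155.RL.div
  have hVD := Pool.Agent.Y155.RL.vd
  have h1 := Pool.Agent.H140.RL.theta1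
  have h2 := Pool.Agent.Q98.RL.Th2.theta2 h1
  have hFF := Pool.Agent.Q275.RL.finFour
  have hVV := Pool.Agent.Q176.RL.vv
  have hPR := Pool.Agent.Q275.RL.pr
  have hGR := Pool.Agent.Q176.RL.gr hBC hKD
  have hFV := Pool.Agent.Q296.RL.fv h1
  have hODE : JobODE := Pool.Agent.Q175.RL.ode hVV hFF (Pool.Agent.Q285.RL.ode1 hVV hFF)
    Pool.Agent.Q98.RL.Od.ode2a Pool.Agent.Q98.RL.Od.ode2b
  obtain ⟨φ, hφ⟩ := exists_FJD hFJ hKD h hF
  obtain ⟨C, m, hm, c1, c2, c3, c4⟩ := exists_second h hF hφ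
  have H : CM G k F φ C m := ⟨hF, hφ, hm, c1, c2, c3, c4⟩
  obtain ⟨c, hJ, hc⟩ := H.exists_jacobi hBC hDIV h
  have hm1 : m = 1 := index_one h1 h2 hFF hVV hVD hKD hGR hFV hPR h H hZ hJ hc
  have hJ' : JacobiZero G c := by
    have : ((m : ℤ) • G) = G := by rw [hm1]; simp
    rwa [this] at hJ
  obtain ⟨Q, hQ⟩ := short_bound h 2
  obtain ⟨_, R, hR, _, _⟩ := hFF G h
  have hmG : ((m : ℤ) • G) = G := by rw [hm1]; simp
  have hmR : (m : ℝ) = 1 := by exact_mod_cast hm1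
  refine hODE G R (vf G c) h he hR (vv10_of h1 h2 h hJ' hR) ?_ ?_ ?_
  · intro μ
    obtain ⟨K, _, hK⟩ := vf_growth h1 h H.hm hJ (μ := μ) (e := 1) (by
      intro n hn
      exact hFV G m c h H.hm hJ μ n 1 Set.univ Q isOpen_univ (Set.mem_univ _)
        (fun X N hN _ hx y => grw_of hGR h H hc hQ hN hx one_pos (zf_one hPR h H.tf hZ hQ hx) y)
        (by rw [hmR] at hn ⊢; linarith))
    refine ⟨K, fun τ hτ => ?_⟩
    have := hK τ hτ
    rwa [hmG, mul_one] at this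
  · intro μ hμ
    obtain ⟨K, _, hK⟩ := vf_growth h1 h H.hm hJ (μ := μ) (e := 1 / 2)
      (fun n hn => coeff_half hGR hFV hPR h H hm1 hZ hJ hc hμ hn)
    refine ⟨K, fun τ hτ => ?_⟩
    have := hK τ hτ
    rw [hmG] at this
    have e1 : 2 * Real.pi * (1 / 2) * τ.im = Real.pi * τ.im := by ring
    rwa [e1] at this
  · by_contra hcon
    push Not at hcon
    obtain ⟨p, hp, hp'⟩ := H.hne2
    apply hp'
    have h4 : φ (C + m) (p.1, p.2) = φ C (p.1, p.2) * c p.1 p.2 := hc _ _ hp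
    have h5 := c_zero h1 h hJ' (fun μ τ hτ => hcon μ τ hτ) (τ := p.1) hp p.2
    rw [h5, mul_zero] at h4
    exact h4

/-- **the genus** -/
theorem same_genus (h : PosSymm G) (he : ∀ i, Even (G i i))
    (hd : ∀ μ, (¬ ∃ v : Fin 20 → ℤ, μ = G.mulVec v) → ∃ k : ℤ, bd G μ μ = 2 * k + 1)
    (hdet : G.det ≠ 1) : Y813.Refl.SameGenus G Y813.Refl.gramEED := by
  obtain ⟨s1, s2, s3, s4⟩ := Pool.Agent.Q175.RL.eed
  have hQ := Pool.Agent.Q275.RL.det G h he hd hdet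
  have hcard : Fintype.card (Fin 20) = Fintype.card (Fin 8 ⊕ (Fin 8 ⊕ Fin 4)) := by simp
  have hreal : IsoOver ℝ G Y813.RL.gramEED :=
    Pool.Agent.Q98.RL.Rl.real (Fin 20) (Fin 8 ⊕ (Fin 8 ⊕ Fin 4)) G Y813.RL.gramEED hcard h.symm s1
      h.pos s3
  refine ⟨hreal, ?_⟩
  intro p hp
  by_cases h2 : p = 2
  · subst h2
    exact Pool.Agent.Q177.RL.two (Fin 20) (Fin 8 ⊕ (Fin 8 ⊕ Fin 4)) G Y813.RL.gramEED hcard
      h.symm s1 he s2 hQ s4
  · refine Pool.Agent.Q296.RL.odd p h2 (Fin 20) (Fin 8 ⊕ (Fin 8 ⊕ Fin 4)) G Y813.RL.gramEED hcard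
      h.symm s1 (by rw [hQ.1, s4.1]) ?_
    rw [hQ.1]
    intro hdvd
    have h3 : (p : ℤ) ∣ 2 ^ 2 := by norm_num; exact hdvd
    have h4 : p ∣ 2 ^ 2 := by exact_mod_cast h3
    have h5 := (Nat.prime_dvd_prime_iff_eq hp.out Nat.prime_two).1 (hp.out.dvd_of_dvd_pow h4)
    exact h2 h5

/-- **Main theorem.** -/
theorem main (G : Matrix (Fin 20) (Fin 20) ℤ) (hsymm : G.IsSymm) (he : ∀ i, Even (G i i))
    (hpos : ∀ x : Fin 20 → ℝ, x ≠ 0 → 0 < form G x x) (Z₀ : Fin 4 ⊕ Fin 20 → ℂ)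
    (hZ₀ : Z₀ ∈ quadric (gramM G))
    (hR : IsReflectiveLattice (gramM G) (connectedComponentIn (quadric (gramM G)) Z₀)) :
    Y813.Refl.SameGenus G Y813.Refl.gramEED := by
  have h : PosSymm G := ⟨hsymm, hpos⟩
  obtain ⟨k, F, hF, hZ⟩ := exists_tubeForm h he (reflective_component h hZ₀ hR)
  obtain ⟨hd, hdet⟩ := disc_form h he hF hZ
  exact same_genus h he hd hdet

end

end Pool.Agent.Q248.RL
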