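import Pool.Agent.Q248.RL.Sl

set_option autoImplicit false

/-!
# Theta components: modularity and growth, and the vanishing criterion
-/

namespace Pool.Agent.Q248.RL

open Complex Set Finset Topology Pool.Agent.Y813.RL
open Pool.Agent.Y683.RL (HP fco)

noncomputable section

variable {G : Matrix (Fin 20) (Fin 20) ℤ}

theorem bd_smul_mat (h : PosSymm G) {m : ℕ} (hm : 0 < m) (μ ν : Fin 20 → ℤ) :
    bd ((m : ℤ) • G) μ ν = bd G μ ν / m := by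
  have hm' : (m : ℝ) ≠ 0 := by exact_mod_cast hm.ne'
  have e1 : ((m : ℤ) • G).map (Int.cast : ℤ → ℝ) = (m : ℝ) • G.map (Int.cast : ℤ → ℝ) := by
    ext i j
    simp only [Matrix.map_apply, Matrix.smul_apply, smul_eq_mul, Int.cast_mul, Int.cast_natCast]
  have e2 : (((m : ℤ) • G).map (Int.cast : ℤ → ℝ))⁻¹ =
      (m : ℝ)⁻¹ • (G.map (Int.cast : ℤ → ℝ))⁻¹ := by
    rw [e1]
    have := Matrix.inv_smul' (A := G.map (Int.cast : ℤ → ℝ)) (Units.mk0 (m : ℝ) hm')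
      (isUnit_det h)
    exact this
  unfold bd
  rw [e2, Finset.sum_div]
  refine Finset.sum_congr rfl fun i _ => ?_
  rw [Matrix.smul_mulVec, Pi.smul_apply, smul_eq_mul]
  field_simp

theorem vv10_of (h1 : JobTheta1) (h2 : JobTheta2) {A : Matrix (Fin 20) (Fin 20) ℤ}
    {c : ℂ → (Fin 20 → ℂ) → ℂ} {R : Finset (Fin 20 → ℤ)} (hA : PosSymm A)
    (hJ : JacobiZero A c) (hR : IsReps A R) : VV10 A R (vf A c) := by
  obtain ⟨t1, t2, _, t4, _⟩ := h1 A c hA hJ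
  refine ⟨fun μ => ?_, fun μ v τ hτ => t4 μ v τ hτ, fun μ τ hτ => ?_, fun μ τ hτ =>
    h2 A c R hA hJ hR μ τ hτ⟩
  · unfold vf
    refine DifferentiableOn.mul ?_ (t1 μ)
    unfold ee
    fun_prop
  · unfold vf
    rw [t2 μ τ hτ, ← mul_assoc, ← Y813.RL.ee_add]
    congr 2
    ring

theorem hp_fc (h1 : JobTheta1) {A : Matrix (Fin 20) (Fin 20) ℤ}
    {c : ℂ → (Fin 20 → ℂ) → ℂ} (hA : PosSymm A)
    (hJ : JacobiZero A c) (μ : Fin 20 → ℤ) : HP 0 (fc c μ) := by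
  obtain ⟨t1, t2, _, _, _⟩ := h1 A c hA hJ
  exact ⟨t1 μ, fun t ht => t2 μ t ht⟩

/-- growth of the theta components -/
theorem vf_growth (h1 : JobTheta1) (h : PosSymm G) {m : ℕ} (hm : 0 < m)
    {c : ℂ → (Fin 20 → ℂ) → ℂ} (hJ : JacobiZero ((m : ℤ) • G) c) {μ : Fin 20 → ℤ} {e : ℝ}
    (h0 : ∀ n : ℤ, (n : ℝ) < bd G μ μ / (2 * m) - e → fco 0 (fc c μ) n = 0) :
    ∃ C : ℝ, 0 ≤ C ∧ ∀ τ : ℂ, 1 / 2 ≤ τ.im →
      ‖vf ((m : ℤ) • G) c μ τ‖ ≤ C * Real.exp (2 * Real.pi * e * τ.im) := by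
  obtain ⟨C, hC, hb⟩ := per_growth (hp_fc h1 (posSymm_smul h hm) hJ μ) h0
  refine ⟨C, hC, fun τ hτ => ?_⟩
  unfold vf
  rw [norm_mul, norm_ee]
  have e1 : (-(τ * (bd ((m : ℤ) • G) μ μ : ℂ) / 2)).im = -(τ.im * (bd G μ μ / m) / 2) := by
    rw [bd_smul_mat h hm, Complex.neg_im]
    congr 1
    have : τ * ((bd G μ μ / m : ℝ) : ℂ) / 2 = (((bd G μ μ / m) / 2 : ℝ) : ℂ) * τ := by
      push_cast
      ring
    rw [this, Complex.im_ofReal_mul]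
    ring
  rw [e1]
  calc Real.exp (-(2 * Real.pi * -(τ.im * (bd G μ μ / m) / 2))) * ‖fc c μ τ‖ ≤
      Real.exp (-(2 * Real.pi * -(τ.im * (bd G μ μ / m) / 2))) *
        (C * Real.exp (-(2 * Real.pi * (bd G μ μ / (2 * m) - e) * τ.im))) := by
        gcongr
        exact hb τ hτ
    _ = C * (Real.exp (-(2 * Real.pi * -(τ.im * (bd G μ μ / m) / 2))) *
        Real.exp (-(2 * Real.pi * (bd G μ μ / (2 * m) - e) * τ.im))) := by ring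
    _ = C * Real.exp (2 * Real.pi * e * τ.im) := by
        rw [← Real.exp_add]
        congr 2
        have hm' : (m : ℝ) ≠ 0 := by exact_mod_cast hm.ne'
        field_simp
        ring

/-- if all theta components vanish, then `c = 0` -/
theorem c_zero (h1 : JobTheta1) {A : Matrix (Fin 20) (Fin 20) ℤ} {c : ℂ → (Fin 20 → ℂ) → ℂ}
    (hA : PosSymm A) (hJ : JacobiZero A c)
    (h0 : ∀ μ (τ : ℂ), 0 < τ.im → vf A c μ τ = 0) {τ : ℂ} (hτ : 0 < τ.im) (z : Fin 20 → ℂ) :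
    c τ z = 0 := by
  obtain ⟨_, _, _, _, t5⟩ := h1 A c hA hJ
  have h2 := t5 τ z hτ
  have h3 : ∀ μ, fc c μ τ = 0 := by
    intro μ
    have h4 := h0 μ τ hτ
    unfold vf at h4
    rcases mul_eq_zero.1 h4 with h5 | h5
    · exact absurd h5 (Y813.RL.ee_ne_zero _)
    · exact h5
  simp only [h3, zero_mul] at h2
  exact h2.unique hasSum_zero

/-- vanishing of the theta components from small growth -/
theorem vf_zero (h1 : JobTheta1) (h2 : JobTheta2) (hFF : JobFinFour) (hVV : JobVV)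
    {A : Matrix (Fin 20) (Fin 20) ℤ} {c : ℂ → (Fin 20 → ℂ) → ℂ}
    (hA : PosSymm A) (hJ : JacobiZero A c) {e : ℝ} (he : e < 5 / 6)
    (hg : ∀ μ, ∃ C : ℝ, 0 ≤ C ∧ ∀ τ : ℂ, 1 / 2 ≤ τ.im →
      ‖vf A c μ τ‖ ≤ C * Real.exp (2 * Real.pi * e * τ.im)) :
    ∀ μ (τ : ℂ), 0 < τ.im → vf A c μ τ = 0 := by
  obtain ⟨hdet, R, hR, _, hU⟩ := hFF A hA
  have hV := vv10_of h1 h2 hA hJ hR
  have hdet' : (0 : ℝ) < (A.det : ℝ) := by exact_mod_cast hdet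
  have key := hVV R 10 (-e) (fun τ i => vf A c i.1 τ) (by push_cast; linarith) (by
    rw [differentiableOn_pi]
    intro i
    exact hV.holo i.1) (by
    intro τ hτ
    refine Finset.sum_congr rfl fun i _ => ?_
    rw [hV.T i.1 τ hτ, norm_mul, norm_ee]
    have : (-((bd A i.1 i.1 : ℂ) / 2)).im = 0 := by
      have : -((bd A i.1 i.1 : ℂ) / 2) = ((-(bd A i.1 i.1 / 2) : ℝ) : ℂ) := by push_cast; ring
      rw [this, Complex.ofReal_im]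
    rw [this]
    simp) (by
    intro τ hτ
    have hs : ∀ μ, ‖vf A c μ τ‖ ^ 2 = ‖τ‖ ^ 20 / (A.det : ℝ) *
        ‖∑ ρ ∈ R, ee (-(bd A μ ρ : ℂ)) * vf A c ρ (-1 / τ)‖ ^ 2 := by
      intro μ
      rw [hV.S μ τ hτ, norm_mul, norm_div, norm_neg, norm_pow, Complex.norm_real,
        Real.norm_eq_abs, abs_of_nonneg (Real.sqrt_nonneg _), mul_pow, div_pow,
        Real.sq_sqrt hdet'.le, ← pow_mul]
    have e1 : ∑ i : R, ‖vf A c i.1 τ‖ ^ 2 = ∑ μ ∈ R, ‖vf A c μ τ‖ ^ 2 :=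
      Finset.sum_coe_sort R (fun μ => ‖vf A c μ τ‖ ^ 2)
    have e2 : ∑ i : R, ‖vf A c i.1 (-1 / τ)‖ ^ 2 = ∑ μ ∈ R, ‖vf A c μ (-1 / τ)‖ ^ 2 :=
      Finset.sum_coe_sort R (fun μ => ‖vf A c μ (-1 / τ)‖ ^ 2)
    rw [e1, e2, Finset.sum_congr rfl fun μ _ => hs μ, ← Finset.mul_sum, hU,
      show 2 * 10 = 20 from rfl, ← mul_assoc, div_mul_cancel₀ _ hdet'.ne']) (by
    have hC : ∀ μ, ∃ C : ℝ, 0 ≤ C ∧ ∀ τ : ℂ, 1 / 2 ≤ τ.im →
      ‖vf A c μ τ‖ ≤ C * Real.exp (2 * Real.pi * e * τ.im) := hg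
    choose C hC0 hC1 using hC
    refine ⟨∑ μ ∈ R, C μ, fun τ hτ i => ?_⟩
    refine (hC1 i.1 τ hτ).trans ?_
    have : -(2 * Real.pi * -e * τ.im) = 2 * Real.pi * e * τ.im := by ring
    rw [this]
    gcongr
    exact Finset.single_le_sum (f := C) (fun μ _ => hC0 μ) i.2)
  intro μ τ hτ
  obtain ⟨ρ, ⟨hρ, v, hv⟩, _⟩ := hR μ
  rw [hv, hV.inv ρ v τ hτ]
  exact key τ hτ ⟨ρ, hρ⟩

/-- **no low zeros only** -/
theorem no_low (h1 : JobTheta1) (h2 : JobTheta2) (hFF : JobFinFour) (hVV : JobVV)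
    (hGR : S_GR) (hFV : S_FV) (h : PosSymm G) {k : ℤ} {F : TP → ℂ}
    {φ : ℕ → ℂ × (Fin 20 → ℂ) → ℂ} {C m : ℕ} {c : ℂ → (Fin 20 → ℂ) → ℂ}
    (H : CM G k F φ C m) (hJ : JacobiZero ((m : ℤ) • G) c)
    (hc : ∀ τ z, 0 < τ.im → φ (C + m) (τ, z) = φ C (τ, z) * c τ z)
    {Q : ℕ} (hQ : ∀ μ : Fin 20 → ℤ, bd G μ μ ≤ 2 → ∀ i, |μ i| ≤ Q) {θ : ℝ} (hθ : 0 < θ)
    (hmθ : m * θ < 5 / 6) (hZF : ∀ (X : Fin 20 → ℤ) (N : ℕ), 0 < N → Gn Q (xr X N) →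
      ZF G F θ (xr X N)) : False := by
  have hA := posSymm_smul h H.hm
  have hg : ∀ μ, ∃ C : ℝ, 0 ≤ C ∧ ∀ τ : ℂ, 1 / 2 ≤ τ.im →
      ‖vf ((m : ℤ) • G) c μ τ‖ ≤ C * Real.exp (2 * Real.pi * (m * θ) * τ.im) := by
    intro μ
    apply vf_growth h1 h H.hm hJ
    intro n hn
    exact hFV G m c h H.hm hJ μ n θ Set.univ Q isOpen_univ (Set.mem_univ _)
      (fun X N hN _ hx y => grw_of hGR h H hc hQ hN hx hθ (hZF X N hN hx) y) hn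
  have h3 := vf_zero h1 h2 hFF hVV hA hJ hmθ hg
  obtain ⟨p, hp, hp'⟩ := H.hne2
  apply hp'
  have h4 : φ (C + m) (p.1, p.2) = φ C (p.1, p.2) * c p.1 p.2 := hc _ _ hp
  have h5 := c_zero h1 hA hJ h3 (τ := p.1) hp p.2
  rw [h5, mul_zero] at h4
  exact h4

end

end Pool.Agent.Q248.RL
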