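import Pool.Agent.Q248.RL.VDc
import Pool.Agent.Q248.RL.VVc

set_option autoImplicit false

/-!
# The index is one, and the growth of the theta components
-/

namespace Pool.Agent.Q248.RL

open Complex Set Finset Topology Pool.Agent.Y813.RL
open Pool.Agent.Y683.RL (HP fco)

noncomputable section

variable {G : Matrix (Fin 20) (Fin 20) ℤ} {k : ℤ} {F : TP → ℂ}
  {φ : ℕ → ℂ × (Fin 20 → ℂ) → ℂ} {C m : ℕ}

/-- **the index is one** -/
theorem index_one (h1 : JobTheta1) (h2 : JobTheta2) (hFF : JobFinFour) (hVV : JobVV)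
    (hVD : JobVD) (hKD : JobKD) (hGR : S_GR) (hFV : S_FV) (hPR : S_PR) (h : PosSymm G)
    {c : ℂ → (Fin 20 → ℂ) → ℂ} (H : CM G k F φ C m) (hZ : ZS G F)
    (hJ : JacobiZero ((m : ℤ) • G) c)
    (hc : ∀ τ z, 0 < τ.im → φ (C + m) (τ, z) = φ C (τ, z) * c τ z) : m = 1 := by
  by_contra hne
  have hm2 : 2 ≤ m := by
    have := H.hm
    omega
  have hmR : (2 : ℝ) ≤ m := by exact_mod_cast hm2
  obtain ⟨Q, hQ⟩ := short_bound h 2
  by_cases hex : ∃ b m n μ, Act G F b m n μ
  · obtain ⟨b₀, m₀, n₀, μ₀, ha₀, htop⟩ := exists_top hex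
    rcases lt_or_ge |m₀| (m : ℤ) with hlt | hge
    · obtain ⟨δ, ρ, hδ, hρ, h4, hpar⟩ := exists_par h ha₀ htop
      exact vd_contra hPR hKD hVD h H hZ hQ ha₀ hδ hρ h4 hpar hlt
    · set η : ℝ := nu G 0 b₀ m₀ n₀ μ₀ / (m₀ : ℝ) ^ 2 with hη
      have hN1 : (1 : ℝ) ≤ (m₀ : ℝ) ^ 2 := one_le_sq ha₀.1
      have hν := nu_le_one ha₀.2.1
      have hη0 : 0 < η := by
        have := hν.1
        positivity
      have hge' : (m : ℝ) ^ 2 ≤ (m₀ : ℝ) ^ 2 := by
        have h5 : ((m : ℤ) : ℝ) ≤ ((|m₀| : ℤ) : ℝ) := by exact_mod_cast hge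
        push_cast at h5
        rw [← sq_abs (m₀ : ℝ)]
        gcongr
      have hηm : (m : ℝ) * η ≤ 1 / 2 := by
        have h5 : η * (m₀ : ℝ) ^ 2 ≤ 1 := by
          rw [hη, div_mul_cancel₀ _ (by positivity)]
          exact hν.2
        have h6 : η * (m : ℝ) ^ 2 ≤ 1 := by nlinarith
        nlinarith
      refine no_low h1 h2 hFF hVV hGR hFV h H hJ hc hQ hη0 (by linarith) fun X N hN hx => ?_
      apply zf_of hPR h H.tf hZ hQ hx hη0
      intro b m' n μ ha
      have hm' : (0 : ℝ) < (m' : ℝ) ^ 2 := lt_of_lt_of_le one_pos (one_le_sq ha.1)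
      have h5 := h.nonneg (lam G μ + (m' : ℝ) • xr X N)
      have h6 : nu G 0 b m' n μ ≤ η * (m' : ℝ) ^ 2 := by
        rcases htop b m' n μ ha with h7 | ⟨h7, _⟩
        · rw [div_lt_iff₀ hm'] at h7
          exact h7.le
        · rw [div_eq_iff hm'.ne'] at h7
          exact h7.le
      linarith
  · have hθ : (0 : ℝ) < 1 / (2 * m) := by positivity
    refine no_low h1 h2 hFF hVV hGR hFV h H hJ hc hQ hθ ?_ fun X N hN hx => ?_
    · have : (m : ℝ) * (1 / (2 * m)) = 1 / 2 := by field_simp
      rw [this]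
      norm_num
    · apply zf_of hPR h H.tf hZ hQ hx hθ
      intro b m' n μ ha
      exact absurd ⟨b, m', n, μ, ha⟩ hex

/-- the coefficients outside of the lattice -/
theorem coeff_half (hGR : S_GR) (hFV : S_FV) (hPR : S_PR) (h : PosSymm G)
    {c : ℂ → (Fin 20 → ℂ) → ℂ} (H : CM G k F φ C m) (hm : m = 1) (hZ : ZS G F)
    (hJ : JacobiZero ((m : ℤ) • G) c)
    (hc : ∀ τ z, 0 < τ.im → φ (C + m) (τ, z) = φ C (τ, z) * c τ z)
    {μ : Fin 20 → ℤ} (hμ : ¬ ∃ v : Fin 20 → ℤ, μ = G.mulVec v) {n : ℤ}
    (hn : (n : ℝ) < bd G μ μ / (2 * m) - 1 / 2) : fco 0 (fc c μ) n = 0 := by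
  obtain ⟨Q, hQ⟩ := short_bound h 2
  have hmR : (m : ℝ) = 1 := by exact_mod_cast hm
  set e : ℝ := bd G μ μ / 2 - n with he
  have he1 : 1 / 2 < e := by
    rw [hmR] at hn
    linarith
  rcases lt_or_ge 1 e with h1e | h1e
  · -- large exponents
    refine hFV G m c h H.hm hJ μ n 1 Set.univ Q isOpen_univ (Set.mem_univ _)
      (fun X N hN _ hx y => grw_of hGR h H hc hQ hN hx one_pos (zf_one hPR h H.tf hZ hQ hx) y) ?_
    rw [hmR]
    linarith
  · set θ : ℝ := (1 / 2 + e) / 2 with hθ
    have hθ1 : 1 / 2 < θ := by linarith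
    have hθe : θ < e := by linarith
    have hθ0 : 0 < θ := by linarith
    set κ : ℝ := 2 * (1 - θ) with hκ
    have hκ1 : κ < 1 := by linarith
    have hκ0 : 0 < κ := by linarith
    set t : ℝ := (1 - κ) / 2 with ht
    have ht0 : 0 < t := by linarith
    set ρ : ℝ := (1 - κ) / (4 * (1 + 1 / t)) with hρ
    have hρ0 : 0 < ρ := by
      have : 0 < 1 - κ := by linarith
      positivity
    refine hFV G m c h H.hm hJ μ n θ {x | bf G (lam G μ + x) (lam G μ + x) < ρ} Q
      (isOpen_lt (bf_contR G (by fun_prop) (by fun_prop)) continuous_const) ?_ ?_ ?_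
    · show bf G (lam G μ + (-(1 / (m : ℝ))) • lam G μ) (lam G μ + (-(1 / (m : ℝ))) • lam G μ) < ρ
      have : lam G μ + (-(1 / (m : ℝ))) • lam G μ = 0 := by
        rw [hmR]
        simp
      rw [this, bf_zero_left]
      exact hρ0
    · intro X N hN hxO hx y
      apply grw_of hGR h H hc hQ hN hx hθ0
      apply zf_of hPR h H.tf hZ hQ hx hθ0
      intro b m' n' μ' ha
      by_contra hcon
      push Not at hcon
      set x := xr X N with hxdef
      have hxO' : bf G (lam G μ + x) (lam G μ + x) < ρ := hxO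
      have hm1 := one_le_sq ha.1
      have hq := h.nonneg (lam G μ' + (m' : ℝ) • x)
      have hν := nu_le_one ha.2.1
      -- |m'| = 1
      have hm2 : (m' : ℝ) ^ 2 < 2 := by nlinarith
      have hm3 : m' * m' = 1 := by
        have h5 : m' ^ 2 < 2 := by exact_mod_cast hm2
        have h6 : (1 : ℤ) ≤ m' ^ 2 := by exact_mod_cast hm1
        nlinarith
      have hm3R : (m' : ℝ) * m' = 1 := by exact_mod_cast hm3
      have hm4 : (m' : ℝ) ^ 2 = 1 := by rw [sq]; exact hm3R
      rw [hm4, mul_one] at hcon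
      have hnu : 1 / 2 < nu G 0 b m' n' μ' := by linarith
      rcases ha.2.1 with ⟨hw1, v, hv⟩ | ⟨_, hw2⟩
      · have hnu1 : nu G 0 b m' n' μ' = 1 := hw1
        rw [hnu1] at hcon
        -- the vector m' • μ' - μ
        have e1 : (m' : ℝ) • lam G μ' - (1 : ℝ) • lam G μ =
            (m' : ℝ) • (lam G μ' + (m' : ℝ) • x) - (lam G μ + x) := by
          funext i
          simp only [Pi.sub_apply, Pi.smul_apply, Pi.add_apply, smul_eq_mul]
          linear_combination (-(x i)) * hm3R
        have e2 : bd G (m' • μ' - (1 : ℤ) • μ) (m' • μ' - (1 : ℤ) • μ) < 1 := by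
          rw [← bf_lam_lam h, lam_comb, Int.cast_one, e1]
          set u := lam G μ' + (m' : ℝ) • x with hu
          set w := lam G μ + x with hw
          have hpos := h.nonneg (t • u + (m' : ℝ) • w)
          rw [bf_add_left, bf_add_right, bf_add_right, bf_smul_left, bf_smul_left, bf_smul_left,
            bf_smul_left, bf_smul_right, bf_smul_right, bf_smul_right, bf_smul_right,
            bf_comm h.symm w u] at hpos
          rw [bf_sub_left, bf_sub_right, bf_sub_right, bf_smul_left, bf_smul_left,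
            bf_smul_right, bf_smul_right, bf_comm h.symm w u]
          have e3 : t * (t * bf G u u) + t * ((m' : ℝ) * bf G u w) +
              ((m' : ℝ) * (t * bf G u w) + (m' : ℝ) * ((m' : ℝ) * bf G w w)) =
              t ^ 2 * bf G u u + 2 * t * ((m' : ℝ) * bf G u w) + bf G w w := by
            linear_combination (bf G w w) * hm3R
          rw [e3] at hpos
          have e4 : (m' : ℝ) * ((m' : ℝ) * bf G u u) = bf G u u := by
            linear_combination (bf G u u) * hm3R
          rw [e4]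
          have h5 : -(2 * ((m' : ℝ) * bf G u w)) ≤ t * bf G u u + (1 / t) * bf G w w := by
            have h6 : 0 ≤ (t ^ 2 * bf G u u + 2 * t * ((m' : ℝ) * bf G u w) + bf G w w) / t :=
              div_nonneg hpos ht0.le
            have h7 : (t ^ 2 * bf G u u + 2 * t * ((m' : ℝ) * bf G u w) + bf G w w) / t =
                t * bf G u u + 2 * ((m' : ℝ) * bf G u w) + (1 / t) * bf G w w := by
              field_simp
            rw [h7] at h6
            linarith
          have h6 : bf G u u < κ := by rw [hκ]; linarith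
          have h7 : (1 + t) * bf G u u ≤ (1 + κ) / 2 := by
            have h8 : (1 + t) * bf G u u ≤ (1 + t) * κ := by gcongr
            have h9 : (1 + t) * κ ≤ (1 + κ) / 2 := by
              rw [ht]
              nlinarith
            linarith
          have h8 : (1 + 1 / t) * bf G w w ≤ (1 - κ) / 4 := by
            have h9 : (1 + 1 / t) * bf G w w ≤ (1 + 1 / t) * ρ := by gcongr
            have h10 : (1 + 1 / t) * ρ = (1 - κ) / 4 := by
              rw [hρ]
              field_simp
            linarith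
          linarith
        -- integrality
        have i1 : bd G μ' μ' / 2 = ((1 + m' * n' : ℤ) : ℝ) := by
          unfold nu at hnu1
          push_cast at hnu1 ⊢
          linarith
        have i2 : bf G (lam G μ') (lam G μ) = ((∑ i, μ i * v i : ℤ) : ℝ) := by
          rw [bf_comm h.symm, bf_lam_lam h, hv, bd_mulVec_right h]
        have i3 : bd G (m' • μ' - (1 : ℤ) • μ) (m' • μ' - (1 : ℤ) • μ) / 2 - e =
            ((1 + m' * n' - m' * ∑ i, μ i * v i + n : ℤ) : ℝ) := by
          rw [← bf_lam_lam h (m' • μ' - (1 : ℤ) • μ), lam_comb, bf_sub_left, bf_sub_right,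
            bf_sub_right, bf_smul_left, bf_smul_left, bf_smul_left, bf_smul_left, bf_smul_right,
            bf_smul_right, bf_smul_right, bf_smul_right, bf_comm h.symm (lam G μ) (lam G μ'), i2,
            bf_lam_lam h, bf_lam_lam h, he]
          push_cast at i1 ⊢
          linear_combination (bd G μ' μ' / 2) * hm3R + i1
        set I : ℤ := 1 + m' * n' - m' * ∑ i, μ i * v i + n with hI
        have hbd0 : 0 ≤ bd G (m' • μ' - (1 : ℤ) • μ) (m' • μ' - (1 : ℤ) • μ) := by
          rw [← bf_lam_lam h]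
          exact h.nonneg _
        have i4 : (-1 : ℝ) ≤ (I : ℝ) := by rw [← i3]; linarith
        have i5 : (I : ℝ) < 0 := by rw [← i3]; linarith
        have i6 : I = -1 := by
          have i7 : (-1 : ℤ) ≤ I := by exact_mod_cast i4
          have i8 : I < 0 := by exact_mod_cast i5
          omega
        have i7 : bd G (m' • μ' - (1 : ℤ) • μ) (m' • μ' - (1 : ℤ) • μ) = 0 := by
          rw [i6] at i3
          push_cast at i3
          linarith
        obtain ⟨ε, hε0, _, hε⟩ := exists_eps h
        have i8 := hε _ (by rw [i7]; exact hε0)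
        apply hμ
        refine ⟨m' • v, ?_⟩
        rw [Matrix.mulVec_smul, ← hv]
        have := sub_eq_zero.1 i8
        rw [this, one_smul]
      · have : nu G 0 b m' n' μ' ≤ 1 / 2 := hw2
        linarith
    · rw [hmR]
      linarith

end

end Pool.Agent.Q248.RL
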