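import Pool.Agent.Q248.RL.Top

set_option autoImplicit false

/-!
# Walls close to the highest one
-/

namespace Pool.Agent.Q248.RL

open Complex Set Finset Topology Pool.Agent.Y813.RL

noncomputable section

variable {G : Matrix (Fin 20) (Fin 20) ℤ} {F : TP → ℂ}

/-- short dual vectors vanish -/
theorem exists_eps (h : PosSymm G) : ∃ ε : ℝ, 0 < ε ∧ ε ≤ 1 ∧
    ∀ ν : Fin 20 → ℤ, bd G ν ν < ε → ν = 0 := by
  have h0 : 0 ≤ ∑ i, |(G i i : ℝ)| := Finset.sum_nonneg fun i _ => abs_nonneg _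
  refine ⟨1 / (1 + ∑ i, |(G i i : ℝ)|), by positivity, ?_, fun ν hν => ?_⟩
  · rw [div_le_one (by positivity)]
    linarith
  · funext i
    have h1 := mu_bound h ν i
    have hbd : 0 ≤ bd G ν ν := by rw [← bf_lam_lam h]; exact h.nonneg _
    have h2 : |(G i i : ℝ)| ≤ ∑ i, |(G i i : ℝ)| :=
      Finset.single_le_sum (f := fun i => |(G i i : ℝ)|) (fun i _ => abs_nonneg _)
        (Finset.mem_univ i)
    rw [lt_div_iff₀ (by positivity)] at hν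
    have h3 : (ν i : ℝ) ^ 2 < 1 := by
      have h4 : (G i i : ℝ) * bd G ν ν ≤ |(G i i : ℝ)| * bd G ν ν :=
        mul_le_mul_of_nonneg_right (le_abs_self _) hbd
      nlinarith [mul_le_mul_of_nonneg_right h2 hbd]
    have h5 : (ν i) ^ 2 < 1 := by exact_mod_cast h3
    show ν i = 0
    nlinarith

theorem lam_comb (a b : ℤ) (μ ν : Fin 20 → ℤ) :
    lam G (a • μ - b • ν) = (a : ℝ) • lam G μ - (b : ℝ) • lam G ν := by
  unfold lam
  have : (fun j => (((a • μ - b • ν) j : ℤ) : ℝ)) =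
      (a : ℝ) • (fun j => (μ j : ℝ)) - (b : ℝ) • fun j => (ν j : ℝ) := by
    funext j
    simp
  rw [this, Matrix.mulVec_sub, Matrix.mulVec_smul, Matrix.mulVec_smul]

/-- `bd` against vectors of the lattice -/
theorem bd_mulVec_right (h : PosSymm G) (μ v : Fin 20 → ℤ) :
    bd G μ (G.mulVec v) = ((∑ i, μ i * v i : ℤ) : ℝ) := by
  rw [← bf_lam_lam h, lam_mulVec h, bf_lam h]
  simp [dt]

theorem wd_small (h : PosSymm G) {b m n : ℤ} {μ : Fin 20 → ℤ} (hw : WD G 0 b m n μ) {j : ℤ}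
    (h1 : ∀ i, j ∣ μ i) (h2 : j ∣ n) : |j| = 1 ∨ |j| = 2 := by
  obtain ⟨d, t, hd, ht, hdt, v, hv⟩ := hw
  have e1 : bd G μ μ * d = ((∑ i, μ i * v i : ℤ) : ℝ) := by
    rw [← bd_mulVec_right h]
    have : G.mulVec v = fun i => d * μ i := by funext i; rw [hv]
    rw [this]
    unfold bd
    have h3 : (fun j => ((d * μ j : ℤ) : ℝ)) = (d : ℝ) • fun j => (μ j : ℝ) := by
      funext j; simp
    rw [h3, Matrix.mulVec_smul, Finset.sum_mul]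
    refine Finset.sum_congr rfl fun i _ => ?_
    simp only [Pi.smul_apply, smul_eq_mul]
    ring
  have e2 : (t : ℝ) = ((∑ i, μ i * v i - 2 * d * m * n : ℤ) : ℝ) := by
    rw [← hdt]
    push_cast at e1 ⊢
    rw [← e1]
    ring
  have e3 : t = ∑ i, μ i * v i - 2 * d * m * n := by exact_mod_cast e2
  have e4 : j ∣ t := by
    rw [e3]
    refine dvd_sub (Finset.dvd_sum fun i _ => (h1 i).mul_right _) ?_
    exact h2.mul_left _
  have e5 : |j| ∣ t := (abs_dvd _ _).2 e4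
  have e6 : 0 < |j| := by
    rcases eq_or_ne j 0 with h0 | h0
    · rw [h0] at e4
      have := zero_dvd_iff.1 e4
      rcases ht with h | h <;> omega
    · exact abs_pos.2 h0
  rcases ht with h | h
  · rw [h] at e5
    have := Int.le_of_dvd one_pos e5
    omega
  · rw [h] at e5
    have := Int.le_of_dvd two_pos e5
    omega

/-- divisibility for parallel walls -/
theorem par_dvd (h : PosSymm G) {b m n b₀ m₀ n₀ : ℤ} {μ μ₀ : Fin 20 → ℤ}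
    (hw : WD G 0 b m n μ) (hw₀ : WD G 0 b₀ m₀ n₀ μ₀) (hm : m ≠ 0)
    (hle : |m| ≤ |m₀|) (hμ : ∀ i, m₀ * μ i = m * μ₀ i) (hn : m₀ * n = m * n₀) :
    ∃ j : ℤ, m₀ = j * m ∧ (∀ i, μ₀ i = j * μ i) ∧ n₀ = j * n := by
  set g : ℤ := ((Int.gcd m m₀ : ℕ) : ℤ) with hg
  have hg0 : g ≠ 0 := by
    rw [hg]
    have := Int.gcd_pos_of_ne_zero_left m₀ hm
    omega
  obtain ⟨m', hm'⟩ : g ∣ m := Int.gcd_dvd_left ..
  obtain ⟨m₀', hm₀'⟩ : g ∣ m₀ := Int.gcd_dvd_right ..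
  have hcop : IsCoprime m' m₀' := by
    have h1 : m' = m / g := by rw [hm', Int.mul_ediv_cancel_left _ hg0]
    have h2 : m₀' = m₀ / g := by rw [hm₀', Int.mul_ediv_cancel_left _ hg0]
    rw [h1, h2, hg]
    have := Int.gcd_div_gcd_div_gcd (i := m) (j := m₀) (Int.gcd_pos_of_ne_zero_left m₀ hm)
    exact Int.isCoprime_iff_gcd_eq_one.2 this
  have hμ' : ∀ i, m₀' * μ i = m' * μ₀ i := by
    intro i
    have := hμ i
    rw [hm', hm₀'] at this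
    have h2 : g * (m₀' * μ i) = g * (m' * μ₀ i) := by linear_combination this
    exact mul_left_cancel₀ hg0 h2
  have hn' : m₀' * n = m' * n₀ := by
    have h1 := hn
    rw [hm', hm₀'] at h1
    have h2 : g * (m₀' * n) = g * (m' * n₀) := by linear_combination h1
    exact mul_left_cancel₀ hg0 h2
  have d1 : ∀ i, m' ∣ μ i := fun i => hcop.dvd_of_dvd_mul_left ⟨μ₀ i, hμ' i⟩
  have d2 : m' ∣ n := hcop.dvd_of_dvd_mul_left ⟨n₀, hn'⟩
  have d3 : ∀ i, m₀' ∣ μ₀ i := fun i => hcop.symm.dvd_of_dvd_mul_left ⟨μ i, (hμ' i).symm⟩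
  have d4 : m₀' ∣ n₀ := hcop.symm.dvd_of_dvd_mul_left ⟨n, hn'.symm⟩
  have a1 := wd_small h hw d1 d2
  have a2 := wd_small h hw₀ d3 d4
  have hle' : |m'| ≤ |m₀'| := by
    rw [hm', hm₀', abs_mul, abs_mul] at hle
    exact le_of_mul_le_mul_left hle (abs_pos.2 hg0)
  have a3 : |m'| = 1 := by
    rcases a1 with h1 | h1
    · exact h1
    · exfalso
      have h2 : |m₀'| = 2 := by omega
      have h3 : (2 : ℤ) ∣ m' := by rw [← dvd_abs, h1]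
      have h4 : (2 : ℤ) ∣ m₀' := by rw [← dvd_abs, h2]
      have h5 := hcop.isUnit_of_dvd' h3 h4
      exact absurd (Int.isUnit_iff.1 h5) (by norm_num)
  have a4 : m' * m' = 1 := by
    have := abs_mul_abs_self m'
    rw [a3] at this
    linarith
  refine ⟨m₀' * m', ?_, fun i => ?_, ?_⟩
  · rw [hm', hm₀']
    linear_combination (-(g * m₀')) * a4
  · have := hμ' i
    linear_combination (-m') * this - (μ₀ i) * a4
  · linear_combination (-m') * hn' - n₀ * a4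

theorem bf_sub_sq_le (h : PosSymm G) (u v : Fin 20 → ℝ) (a b : ℝ) :
    bf G (a • u - b • v) (a • u - b • v) ≤ 2 * a ^ 2 * bf G u u + 2 * b ^ 2 * bf G v v := by
  have h1 := h.nonneg (a • u + b • v)
  rw [bf_add_left, bf_add_right, bf_add_right, bf_smul_left, bf_smul_left, bf_smul_left,
    bf_smul_left, bf_smul_right, bf_smul_right, bf_smul_right, bf_smul_right,
    bf_comm h.symm v u] at h1
  rw [bf_sub_left, bf_sub_right, bf_sub_right, bf_smul_left, bf_smul_left, bf_smul_left,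
    bf_smul_left, bf_smul_right, bf_smul_right, bf_smul_right, bf_smul_right,
    bf_comm h.symm v u]
  nlinarith

/-- **walls close to the highest one are parallel to it** -/
theorem exists_par (h : PosSymm G) {b₀ m₀ n₀ : ℤ} {μ₀ : Fin 20 → ℤ}
    (ha₀ : Act G F b₀ m₀ n₀ μ₀) (htop : ∀ b m n μ, Act G F b m n μ →
      nu G 0 b m n μ / (m : ℝ) ^ 2 < nu G 0 b₀ m₀ n₀ μ₀ / (m₀ : ℝ) ^ 2 ∨
      (nu G 0 b m n μ / (m : ℝ) ^ 2 = nu G 0 b₀ m₀ n₀ μ₀ / (m₀ : ℝ) ^ 2 ∧ |m| ≤ |m₀|)) :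
    ∃ δ ρ : ℝ, 0 < δ ∧ 0 < ρ ∧ 4 * δ ≤ nu G 0 b₀ m₀ n₀ μ₀ / (m₀ : ℝ) ^ 2 ∧
      ∀ x : Fin 20 → ℝ, bf G (lam G μ₀ + (m₀ : ℝ) • x) (lam G μ₀ + (m₀ : ℝ) • x) ≤ ρ →
      ∀ b m n μ, Act G F b m n μ →
        (m : ℝ) ^ 2 * (nu G 0 b₀ m₀ n₀ μ₀ / (m₀ : ℝ) ^ 2 - 2 * δ) < nu G 0 b m n μ -
          bf G (lam G μ + (m : ℝ) • x) (lam G μ + (m : ℝ) • x) / 2 →
        ∃ j : ℤ, m₀ = j * m ∧ (∀ i, μ₀ i = j * μ i) ∧ n₀ = j * n := by
  obtain ⟨ε, hε0, hε1, hε⟩ := exists_eps h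
  set H : ℝ := nu G 0 b₀ m₀ n₀ μ₀ / (m₀ : ℝ) ^ 2 with hH
  have hN1 : (1 : ℝ) ≤ (m₀ : ℝ) ^ 2 := one_le_sq ha₀.1
  have hN0 : (0 : ℝ) < (m₀ : ℝ) ^ 2 := by linarith
  have hν0 := nu_le_one ha₀.2.1
  have hH0 : 0 < H := by
    have := hν0.1
    positivity
  have hH1 : H ≤ 1 := by
    rw [hH, div_le_one hN0]
    linarith [hν0.2]
  set δ : ℝ := H * ε / (64 * (m₀ : ℝ) ^ 2) with hδ
  have hδ0 : 0 < δ := by positivity
  have hδN : 64 * (m₀ : ℝ) ^ 2 * δ = H * ε := by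
    rw [hδ, mul_div_cancel₀ _ (by positivity)]
  have hδ1 : 64 * δ ≤ H := by nlinarith
  refine ⟨δ, H * ε / 16, hδ0, by positivity, by linarith, fun x hx b m n μ ha hlt => ?_⟩
  have hm1 : (1 : ℝ) ≤ (m : ℝ) ^ 2 := one_le_sq ha.1
  have hm0 : (0 : ℝ) < (m : ℝ) ^ 2 := by linarith
  have hν := nu_le_one ha.2.1
  have hq := h.nonneg (lam G μ + (m : ℝ) • x)
  have hνH : nu G 0 b m n μ ≤ (m : ℝ) ^ 2 * H := by
    rcases htop b m n μ ha with h1 | ⟨h1, _⟩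
    · rw [div_lt_iff₀ hm0] at h1
      linarith
    · rw [div_eq_iff hm0.ne'] at h1
      linarith
  have hmH : (m : ℝ) ^ 2 * H ≤ 2 := by nlinarith
  have hu : bf G (lam G μ + (m : ℝ) • x) (lam G μ + (m : ℝ) • x) ≤ 4 * (m : ℝ) ^ 2 * δ := by
    nlinarith
  -- parallel
  have hν0' : m₀ • μ - m • μ₀ = 0 := by
    apply hε
    rw [← bf_lam_lam h, lam_comb]
    have e1 : (m₀ : ℝ) • lam G μ - (m : ℝ) • lam G μ₀ =
        (m₀ : ℝ) • (lam G μ + (m : ℝ) • x) - (m : ℝ) • (lam G μ₀ + (m₀ : ℝ) • x) := by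
      funext i
      simp only [Pi.sub_apply, Pi.smul_apply, Pi.add_apply, smul_eq_mul]
      ring
    rw [e1]
    refine lt_of_le_of_lt (bf_sub_sq_le h _ _ _ _) ?_
    have e2 : 2 * (m₀ : ℝ) ^ 2 * bf G (lam G μ + (m : ℝ) • x) (lam G μ + (m : ℝ) • x) ≤
        2 * (m₀ : ℝ) ^ 2 * (4 * (m : ℝ) ^ 2 * δ) := by gcongr
    have e3 : 2 * (m : ℝ) ^ 2 * bf G (lam G μ₀ + (m₀ : ℝ) • x) (lam G μ₀ + (m₀ : ℝ) • x) ≤
        2 * (m : ℝ) ^ 2 * (H * ε / 16) := by gcongr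
    have e4 : 2 * (m₀ : ℝ) ^ 2 * (4 * (m : ℝ) ^ 2 * δ) = (m : ℝ) ^ 2 * (H * ε) / 8 := by
      rw [← hδN]; ring
    have e5 : (m : ℝ) ^ 2 * (H * ε) ≤ 2 * ε := by nlinarith
    nlinarith
  have hμ : ∀ i, m₀ * μ i = m * μ₀ i := by
    intro i
    have := congrFun hν0' i
    simp only [Pi.sub_apply, Pi.smul_apply, smul_eq_mul, Pi.zero_apply] at this
    linarith
  -- equality of the heights
  have hbd : (m₀ : ℝ) ^ 2 * bd G μ μ = (m : ℝ) ^ 2 * bd G μ₀ μ₀ := by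
    rw [← bf_lam_lam h, ← bf_lam_lam h]
    have e1 : (m₀ : ℝ) • lam G μ = (m : ℝ) • lam G μ₀ := by
      have h1 := lam_comb (G := G) m₀ m μ μ₀
      rw [hν0'] at h1
      have h2 : lam G 0 = 0 := by
        have := lam_comb (G := G) 0 0 μ μ
        simpa using this
      rw [h2] at h1
      exact (sub_eq_zero.1 h1.symm)
    have e2 := congrArg (fun w => bf G w w) e1
    simp only [bf_smul_left, bf_smul_right] at e2
    linear_combination e2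
  have hn : m₀ * n = m * n₀ := by
    by_contra hne
    have h1 : (1 : ℝ) ≤ ((m₀ * n - m * n₀ : ℤ) : ℝ) ^ 2 := one_le_sq (sub_ne_zero.2 hne)
    have h2 : nu G 0 b m n μ * (m₀ : ℝ) ^ 2 - (m : ℝ) ^ 2 * nu G 0 b₀ m₀ n₀ μ₀ =
        -((m * m₀ : ℤ) : ℝ) * ((m₀ * n - m * n₀ : ℤ) : ℝ) := by
      unfold nu
      push_cast
      linear_combination hbd / 2
    have h3 : nu G 0 b₀ m₀ n₀ μ₀ = (m₀ : ℝ) ^ 2 * H := by
      rw [hH, mul_div_cancel₀ _ hN0.ne']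
    have h4 : (m₀ : ℝ) ^ 2 * (nu G 0 b m n μ - (m : ℝ) ^ 2 * H) =
        -((m * m₀ : ℤ) : ℝ) * ((m₀ * n - m * n₀ : ℤ) : ℝ) := by
      rw [← h2, h3]
      ring
    set w : ℝ := nu G 0 b m n μ - (m : ℝ) ^ 2 * H with hw
    have hw1 : w ≤ 0 := by rw [hw]; linarith
    have hw2 : -(2 * δ * (m : ℝ) ^ 2) < w := by
      rw [hw]
      nlinarith
    have h5 : ((m₀ : ℝ) ^ 2 * w) ^ 2 = (m : ℝ) ^ 2 * (m₀ : ℝ) ^ 2 *
        ((m₀ * n - m * n₀ : ℤ) : ℝ) ^ 2 := by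
      rw [h4]
      push_cast
      ring
    have h6 : w ^ 2 ≤ (2 * δ * (m : ℝ) ^ 2) ^ 2 := by
      apply sq_le_sq'
      · linarith
      · have : 0 ≤ 2 * δ * (m : ℝ) ^ 2 := by positivity
        linarith
    have h7 : (m : ℝ) ^ 2 * (m₀ : ℝ) ^ 2 ≤ ((m₀ : ℝ) ^ 2) ^ 2 * (2 * δ * (m : ℝ) ^ 2) ^ 2 := by
      calc (m : ℝ) ^ 2 * (m₀ : ℝ) ^ 2 = (m : ℝ) ^ 2 * (m₀ : ℝ) ^ 2 * 1 := by ring
        _ ≤ (m : ℝ) ^ 2 * (m₀ : ℝ) ^ 2 * ((m₀ * n - m * n₀ : ℤ) : ℝ) ^ 2 := by gcongr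
        _ = ((m₀ : ℝ) ^ 2 * w) ^ 2 := h5.symm
        _ = ((m₀ : ℝ) ^ 2) ^ 2 * w ^ 2 := by ring
        _ ≤ _ := by gcongr
    -- m₀² ≤ m₀⁴ 4 δ² m²
    have h8 : ((m₀ : ℝ) ^ 2) ^ 2 * (2 * δ * (m : ℝ) ^ 2) ^ 2 =
        ((m : ℝ) ^ 2 * (m₀ : ℝ) ^ 2) * ((m : ℝ) ^ 2 * (4 * (m₀ : ℝ) ^ 2 * δ * δ)) := by ring
    rw [h8] at h7
    have h9 : (1 : ℝ) ≤ (m : ℝ) ^ 2 * (4 * (m₀ : ℝ) ^ 2 * δ * δ) := by
      have hp : 0 < (m : ℝ) ^ 2 * (m₀ : ℝ) ^ 2 := by positivity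
      by_contra hc
      push Not at hc
      nlinarith
    have h10 : 4 * (m₀ : ℝ) ^ 2 * δ = H * ε / 16 := by linarith
    rw [h10] at h9
    have h11 : (m : ℝ) ^ 2 * (H * ε / 16 * δ) ≤ 2 * ε / 16 * δ := by
      nlinarith [mul_pos hε0 hδ0]
    have h12 : 2 * ε / 16 * δ < 1 := by nlinarith
    linarith
  have hle : |m| ≤ |m₀| := by
    rcases htop b m n μ ha with h1 | ⟨_, h1⟩
    · exfalso
      -- the heights are equal
      have h2 : nu G 0 b m n μ * (m₀ : ℝ) ^ 2 = (m : ℝ) ^ 2 * nu G 0 b₀ m₀ n₀ μ₀ := by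
        unfold nu
        have h3 : ((m₀ * n : ℤ) : ℝ) = ((m * n₀ : ℤ) : ℝ) := by rw [hn]
        push_cast at h3 ⊢
        linear_combination hbd / 2 - (m : ℝ) * (m₀ : ℝ) * h3
      rw [hH, div_lt_div_iff₀ hm0 hN0, h2] at h1
      linarith
    · exact h1
  exact par_dvd h ha.2.2.1 ha₀.2.2.1 ha.1 hle hμ hn

end

end Pool.Agent.Q248.RL
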