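import Pool.Agent.Q248.RL.Sl

set_option autoImplicit false

/-!
# Upper and lower bounds of the leading coefficient on rational slices
-/

namespace Pool.Agent.Q248.RL

open Complex Set Finset Topology Pool.Agent.Y813.RL
open Pool.Agent.Y683.RL (HP fco)

noncomputable section

variable {G : Matrix (Fin 20) (Fin 20) ℤ} {k : ℤ} {F : TP → ℂ}
  {φ : ℕ → ℂ × (Fin 20 → ℂ) → ℂ} {C m : ℕ}

/-- uniform bound of `F` on slices -/
theorem slice_bound (hKD : JobKD) (h : PosSymm G) (hF : TubeForm G k F) (X : Fin 20 → ℤ) {N : ℕ}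
    (hN : 0 < N) (y : Fin 20 → ℝ) {θ : ℝ} (hθ : 0 < θ) : ∃ M : ℝ, 1 ≤ M ∧
      ∀ (τ ω : ℂ), 1 ≤ τ.im → τ.im * (θ + bf G (xr X N) (xr X N) / 2) ≤ ω.im →
        ‖F (ω, sl (xr X N) y τ)‖ ≤ M := by
  obtain ⟨M, hM⟩ := bound_slice hKD h hF X hN hθ
  refine ⟨max M 1, le_max_right _ _, fun τ ω hτ hω => (hM (ω, sl (xr X N) y τ) hτ
    (imv_sl _ _ _) ?_).trans (le_max_left _ _)⟩
  show (θ + _) * τ.im ≤ ω.im
  rw [mul_comm]
  exact hω

theorem coeff_le (hφ : FJD G F φ) (j : ℕ) {p : ℂ × (Fin 20 → ℂ)} (hp : p ∈ UP) {v M : ℝ}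
    (hv : bh G p < v) (hM : ∀ ω : ℂ, ω.im = v → ‖F (ω, p)‖ ≤ M) :
    ‖φ j p‖ ≤ M * Real.exp (2 * Real.pi * v * j) := by
  rw [hφ.coeff j p v hp hv]
  have h1 : ∀ u ∈ Set.uIoc (0 : ℝ) 1, ‖F ((u : ℂ) + (v : ℂ) * Complex.I, p) *
      ee (-(j * ((u : ℂ) + (v : ℂ) * Complex.I)))‖ ≤ M * Real.exp (2 * Real.pi * v * j) := by
    intro u _
    rw [norm_mul, norm_ee]
    have h2 : (-((j : ℂ) * ((u : ℂ) + (v : ℂ) * Complex.I))).im = -(j * v) := by
      simp [Complex.mul_im]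
    rw [h2]
    have h3 : -(2 * Real.pi * -(j * v)) = 2 * Real.pi * v * j := by ring
    rw [h3]
    exact mul_le_mul_of_nonneg_right (hM _ (by simp)) (Real.exp_pos _).le
  have := intervalIntegral.norm_integral_le_of_norm_le_const h1
  simpa using this

theorem phi_upper (hKD : JobKD) (h : PosSymm G) (hF : TubeForm G k F) (hφ : FJD G F φ) (j : ℕ)
    (X : Fin 20 → ℤ) {N : ℕ} (hN : 0 < N) (y : Fin 20 → ℝ) : ∃ M a : ℝ, 1 ≤ M ∧ 0 ≤ a ∧
      ∀ τ : ℂ, 1 ≤ τ.im → ‖φ j (sl (xr X N) y τ)‖ ≤ M * Real.exp (a * τ.im) := by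
  obtain ⟨M, hM1, hM⟩ := slice_bound hKD h hF X hN y one_pos
  set q := bf G (xr X N) (xr X N) with hq
  have hq0 : 0 ≤ q := h.nonneg _
  refine ⟨M, 2 * Real.pi * (1 + q / 2) * j, hM1, by positivity, fun τ hτ => ?_⟩
  have hτ0 : 0 < τ.im := by linarith
  have h1 := coeff_le hφ j (sl_mem (xr X N) y hτ0) (v := τ.im * (1 + q / 2)) (M := M) (by
    rw [bh_sl _ _ hτ0, ← hq]
    nlinarith) (fun ω hω => hM τ ω hτ hω.ge)
  refine h1.trans (le_of_eq ?_)
  congr 2
  ring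

/-- the slice as a periodic function -/
theorem slice_hp (hF : TubeForm G k F) (hφ : FJD G F φ) (j : ℕ)
    (X : Fin 20 → ℤ) {N : ℕ} (hN : 0 < N) (y : Fin 20 → ℝ) :
    HP 0 (fun t : ℂ => φ j (sl (xr X N) y (N * t))) := by
  have hN' : (0 : ℝ) < N := by exact_mod_cast hN
  have him : ∀ t : ℂ, ((N : ℂ) * t).im = N * t.im := by
    intro t
    have : (N : ℂ) * t = ((N : ℝ) : ℂ) * t := by push_cast; rfl
    rw [this, Complex.im_ofReal_mul]
  have hT : ∀ (n : ℕ) (τ : ℂ) (z : Fin 20 → ℂ), 0 < τ.im → φ j (τ + n, z) = φ j (τ, z) := by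
    intro n
    induction n with
    | zero => intro τ z _; simp
    | succ n ih =>
      intro τ z hτ
      have h1 := law_T hF hφ j (τ := τ + n) z (by simpa using hτ)
      rw [Nat.cast_succ, ← add_assoc, h1, ih τ z hτ]
  constructor
  · refine (hφ.holo j).comp (t := UP) ?_ ?_
    · unfold sl
      fun_prop
    · intro t ht
      have ht' : 0 < t.im := ht
      show 0 < ((N : ℂ) * t).im
      rw [him]
      positivity
  · intro t ht
    have hNt : 0 < ((N : ℂ) * t).im := by rw [him]; positivity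
    have e1 : sl (xr X N) y (N * (t + 1)) = ((N : ℂ) * t + (N : ℕ),
        fun i => (sl (xr X N) y (N * t)).2 i + (X i : ℂ)) := by
      unfold sl
      refine Prod.ext ?_ ?_
      · simp only
        ring
      · funext i
        simp only [xr]
        have hN'' : (N : ℂ) ≠ 0 := by exact_mod_cast hN.ne'
        push_cast
        field_simp
        ring
    rw [e1, hT N _ _ hNt, law_z hF hφ j _ X hNt]
    rfl

/-- lower bound of the leading coefficient on generic slices -/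
theorem phi_lower (hKD : JobKD) (h : PosSymm G) (H : CM G k F φ C m) (X : Fin 20 → ℤ) {N : ℕ}
    (hN : 0 < N) (y : Fin 20 → ℝ) (hmir : ∀ τ : ℂ, 0 < τ.im → sl (xr X N) y τ ∉ Mir G) :
    ∃ c a T : ℝ, 0 < c ∧ ∀ τ : ℂ, T ≤ τ.im →
      c * Real.exp (-(a * τ.im)) ≤ ‖φ C (sl (xr X N) y τ)‖ := by
  have hN' : (0 : ℝ) < N := by exact_mod_cast hN
  have hN'' : (N : ℂ) ≠ 0 := by exact_mod_cast hN.ne'
  have him : ∀ t : ℂ, ((N : ℂ) * t).im = N * t.im := by
    intro t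
    have : (N : ℂ) * t = ((N : ℝ) : ℂ) * t := by push_cast; rfl
    rw [this, Complex.im_ofReal_mul]
  have hHP := slice_hp H.tf H.fd C X hN y
  obtain ⟨M, a, hM, ha, hup⟩ := phi_upper hKD h H.tf H.fd C X hN y
  obtain ⟨c, a', T₁, hc, hlow⟩ := per_lower hHP ⟨Complex.I, by simp, by
    have h1 : 0 < ((N : ℂ) * Complex.I).im := by rw [him]; simpa using hN
    exact leading_ne_zero h H.tf H.fd H.hC H.hne (sl_mem _ _ h1) (hmir _ h1)⟩
    (M := M) (a := a * N) (by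
      intro t ht
      have h1 : 1 ≤ ((N : ℂ) * t).im := by
        rw [him]
        have : (1 : ℝ) ≤ N := by exact_mod_cast hN
        nlinarith
      refine (hup _ h1).trans (le_of_eq ?_)
      rw [him]
      congr 2
      ring)
  refine ⟨c, a' / N, T₁ * N, hc, fun τ hτ => ?_⟩
  have h1 : (N : ℂ) * (τ / N) = τ := by field_simp
  have h2 : (τ / N : ℂ).im = τ.im / N := by
    have : τ / (N : ℂ) = τ / ((N : ℝ) : ℂ) := by push_cast; rfl
    rw [this, Complex.div_ofReal_im]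
  have h3 := hlow (τ / N) (by rw [h2, le_div_iff₀ hN']; exact hτ)
  rw [h1, h2] at h3
  refine le_trans (le_of_eq ?_) h3
  congr 3
  ring

end

end Pool.Agent.Q248.RL
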