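import Pool.Agent.Q248.RL.Sl

set_option autoImplicit false

/-!
# The highest active wall
-/

namespace Pool.Agent.Q248.RL

open Complex Set Finset Topology Pool.Agent.Y813.RL

noncomputable section

variable {G : Matrix (Fin 20) (Fin 20) ℤ} {F : TP → ℂ}

/-- there is an active wall of maximal height and, among those, of maximal `|m|` -/
theorem exists_top (hex : ∃ b m n μ, Act G F b m n μ) :
    ∃ b₀ m₀ n₀ μ₀, Act G F b₀ m₀ n₀ μ₀ ∧ ∀ b m n μ, Act G F b m n μ →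
      nu G 0 b m n μ / (m : ℝ) ^ 2 < nu G 0 b₀ m₀ n₀ μ₀ / (m₀ : ℝ) ^ 2 ∨
      (nu G 0 b m n μ / (m : ℝ) ^ 2 = nu G 0 b₀ m₀ n₀ μ₀ / (m₀ : ℝ) ^ 2 ∧ |m| ≤ |m₀|) := by
  classical
  obtain ⟨b₁, m₁, n₁, μ₁, h₁⟩ := hex
  set q₀ : ℝ := nu G 0 b₁ m₁ n₁ μ₁ / (m₁ : ℝ) ^ 2 with hq₀
  have hpos : ∀ {b m n μ}, Act G F b m n μ → 0 < nu G 0 b m n μ / (m : ℝ) ^ 2 := by
    intro b m n μ ha
    have h2 := one_le_sq ha.1
    have h3 := (nu_le_one ha.2.1).1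
    positivity
  have hq : 0 < q₀ := hpos h₁
  obtain ⟨B, hB⟩ := exists_nat_gt (1 / q₀ + 1)
  set S : Finset (ℤ × ℤ × ℤ) := ((Finset.Icc (1 : ℤ) 2) ×ˢ (Finset.Icc (1 : ℤ) B) ×ˢ
    (Finset.Icc (1 : ℤ) B)).filter (fun p => ∃ b m n μ, Act G F b m n μ ∧ |m| = p.2.2 ∧
      nu G 0 b m n μ * (2 * (p.2.1 : ℝ)) = p.1 ∧ q₀ ≤ nu G 0 b m n μ / (m : ℝ) ^ 2) with hS
  have hmem : ∀ {b m n μ}, Act G F b m n μ → q₀ ≤ nu G 0 b m n μ / (m : ℝ) ^ 2 →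
      ∃ t d : ℤ, (t, d, |m|) ∈ S ∧ 0 < d ∧ nu G 0 b m n μ * (2 * (d : ℝ)) = t := by
    intro b m n μ ha hle
    obtain ⟨d, t, hd, ht, hdt, v, hv⟩ := ha.2.2.1
    have hdt' : nu G 0 b m n μ * (2 * (d : ℝ)) = t := hdt
    have hm2 := one_le_sq ha.1
    have hn1 := (nu_le_one ha.2.1).2
    have hn0 := (nu_le_one ha.2.1).1
    have hm0 : 0 < (m : ℝ) ^ 2 := by linarith
    rw [le_div_iff₀ hm0] at hle
    have hqν : q₀ ≤ nu G 0 b m n μ := by nlinarith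
    have hdB : (d : ℝ) ≤ B := by
      have ht2 : (t : ℝ) ≤ 2 := by
        rcases ht with h | h <;> rw [h] <;> norm_num
      have hd0 : (0 : ℝ) < d := by exact_mod_cast hd
      have h5 : q₀ * (d : ℝ) ≤ 1 := by nlinarith
      have h6 : (d : ℝ) ≤ 1 / q₀ := by
        rw [le_div_iff₀ hq]
        linarith
      linarith
    have hmB : (|m| : ℤ) ≤ B := by
      have h5 : (m : ℝ) ^ 2 ≤ 1 / q₀ := by
        rw [le_div_iff₀ hq]
        linarith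
      have h6 : ((|m| : ℤ) : ℝ) ≤ (m : ℝ) ^ 2 := by
        have h7 : (1 : ℤ) ≤ |m| := Int.one_le_abs ha.1
        have h8 : |m| ≤ m ^ 2 := by
          rw [← sq_abs]
          nlinarith
        exact_mod_cast h8
      have h7 : ((|m| : ℤ) : ℝ) ≤ B := by linarith
      exact_mod_cast h7
    refine ⟨t, d, ?_, hd, hdt'⟩
    rw [hS, Finset.mem_filter, Finset.mem_product, Finset.mem_product, Finset.mem_Icc,
      Finset.mem_Icc, Finset.mem_Icc]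
    refine ⟨⟨?_, ⟨?_, ?_⟩, ⟨?_, ?_⟩⟩, b, m, n, μ, ha, rfl, hdt', ?_⟩
    · rcases ht with h | h <;> rw [h] <;> norm_num
    · exact hd
    · exact_mod_cast hdB
    · exact Int.one_le_abs ha.1
    · exact hmB
    · rw [le_div_iff₀ hm0]
      exact hle
  have hne : S.Nonempty := by
    obtain ⟨t, d, h, _⟩ := hmem h₁ le_rfl
    exact ⟨_, h⟩
  obtain ⟨p, hp, hmax⟩ := S.exists_max_image (fun p : ℤ × ℤ × ℤ =>
    toLex (((p.1 : ℝ) / (2 * (p.2.1 : ℝ)) / (p.2.2 : ℝ) ^ 2), p.2.2)) hne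
  rw [hS, Finset.mem_filter, Finset.mem_product, Finset.mem_product, Finset.mem_Icc,
    Finset.mem_Icc, Finset.mem_Icc] at hp
  obtain ⟨⟨_, ⟨hp2, _⟩, _⟩, b₀, m₀, n₀, μ₀, ha₀, hm₀, hν₀, hq₀'⟩ := hp
  have hval : ∀ {b m n : ℤ} {μ : Fin 20 → ℤ} {t d k : ℤ}, 0 < d → |m| = k →
      nu G 0 b m n μ * (2 * (d : ℝ)) = t →
      (t : ℝ) / (2 * (d : ℝ)) / (k : ℝ) ^ 2 = nu G 0 b m n μ / (m : ℝ) ^ 2 := by
    intro b m n μ t d k hd hk ht
    have hd' : (0 : ℝ) < d := by exact_mod_cast hd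
    rw [← ht, mul_div_assoc, div_self (by positivity), mul_one, ← hk]
    congr 1
    push_cast
    rw [sq_abs]
  refine ⟨b₀, m₀, n₀, μ₀, ha₀, fun b m n μ ha => ?_⟩
  have e0 := hval (lt_of_lt_of_le one_pos hp2) hm₀ hν₀
  rcases lt_or_ge (nu G 0 b m n μ / (m : ℝ) ^ 2) q₀ with hlt | hge
  · left
    exact lt_of_lt_of_le hlt hq₀'
  · obtain ⟨t, d, hS', hd, hdt⟩ := hmem ha hge
    have h5 := hmax _ hS'
    have e1 := hval hd rfl hdt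
    rw [Prod.Lex.toLex_le_toLex] at h5
    simp only at h5
    rw [e0, e1] at h5
    rcases h5 with h5 | ⟨h5, h6⟩
    · left; exact h5
    · right
      exact ⟨h5, by rw [hm₀]; exact h6⟩

end

end Pool.Agent.Q248.RL
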