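import Pool.Agent.Q248.RL.Par
import Pool.Agent.Q248.RL.Phi

set_option autoImplicit false

/-!
# No highest wall with small `|m|`
-/

namespace Pool.Agent.Q248.RL

open Complex Set Finset Topology Pool.Agent.Y813.RL

noncomputable section

variable {G : Matrix (Fin 20) (Fin 20) ℤ} {k : ℤ} {F : TP → ℂ}
  {φ : ℕ → ℂ × (Fin 20 → ℂ) → ℂ} {C m : ℕ}

/-- elementary: a linear function against an exponential -/
theorem exists_large (A B K c T₀ : ℝ) (hc : 0 < c) (hK : 0 < K) : ∃ T : ℝ, T₀ ≤ T ∧ 1 ≤ T ∧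
    K * (A + B * T) * Real.exp (-(c * T)) < 1 := by
  set D : ℝ := K * (|A| + |B|) with hD
  have hD0 : 0 ≤ D := by positivity
  refine ⟨max (max T₀ 1) (2 * D / c ^ 2 + 1), (le_max_left _ _).trans (le_max_left _ _),
    (le_max_right _ _).trans (le_max_left _ _), ?_⟩
  set T : ℝ := max (max T₀ 1) (2 * D / c ^ 2 + 1) with hT
  have hT1 : 1 ≤ T := (le_max_right _ _).trans (le_max_left _ _)
  have hT2 : 2 * D / c ^ 2 < T := lt_of_lt_of_le (by linarith) (le_max_right _ _)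
  have hT0 : 0 < T := by linarith
  have h1 : A + B * T ≤ (|A| + |B|) * T := by
    have := le_abs_self A
    have := le_abs_self B
    nlinarith [abs_nonneg A, abs_nonneg B]
  have h2 : (c * T) ^ 2 / 2 < Real.exp (c * T) := by
    have h3 : 0 < c * T := by positivity
    have := Real.quadratic_le_exp_of_nonneg h3.le
    linarith
  have h3 : Real.exp (-(c * T)) < 2 / (c * T) ^ 2 := by
    rw [Real.exp_neg, inv_lt_comm₀ (Real.exp_pos _) (by positivity), inv_div]
    exact h2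
  calc K * (A + B * T) * Real.exp (-(c * T)) ≤ K * ((|A| + |B|) * T) * Real.exp (-(c * T)) := by
        gcongr
    _ = D * T * Real.exp (-(c * T)) := by rw [hD]; ring
    _ ≤ D * T * (2 / (c * T) ^ 2) := by gcongr
    _ = (2 * D / c ^ 2) / T := by field_simp
    _ < 1 := by
        rw [div_lt_one hT0]
        exact hT2

/-- **no highest wall with `|m₀| < m`** -/
theorem vd_contra (hPR : S_PR) (hKD : JobKD) (hVD : JobVD) (h : PosSymm G)
    (H : CM G k F φ C m) (hZ : ZS G F) {Q : ℕ}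
    (hQ : ∀ μ : Fin 20 → ℤ, bd G μ μ ≤ 2 → ∀ i, |μ i| ≤ Q)
    {b₀ m₀ n₀ : ℤ} {μ₀ : Fin 20 → ℤ} (ha₀ : Act G F b₀ m₀ n₀ μ₀) {δ ρ : ℝ} (hδ : 0 < δ)
    (hρ : 0 < ρ) (hδH : 4 * δ ≤ nu G 0 b₀ m₀ n₀ μ₀ / (m₀ : ℝ) ^ 2)
    (hpar : ∀ x : Fin 20 → ℝ, bf G (lam G μ₀ + (m₀ : ℝ) • x) (lam G μ₀ + (m₀ : ℝ) • x) ≤ ρ →
      ∀ b m n μ, Act G F b m n μ →
        (m : ℝ) ^ 2 * (nu G 0 b₀ m₀ n₀ μ₀ / (m₀ : ℝ) ^ 2 - 2 * δ) < nu G 0 b m n μ -
          bf G (lam G μ + (m : ℝ) • x) (lam G μ + (m : ℝ) • x) / 2 →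
        ∃ j : ℤ, m₀ = j * m ∧ (∀ i, μ₀ i = j * μ i) ∧ n₀ = j * n)
    (hlt : |m₀| < m) : False := by
  classical
  set η : ℝ := nu G 0 b₀ m₀ n₀ μ₀ / (m₀ : ℝ) ^ 2 with hη
  have hm₀ := ha₀.1
  have hm₀R : (m₀ : ℝ) ≠ 0 := by exact_mod_cast hm₀
  have hm₀C : (m₀ : ℂ) ≠ 0 := by exact_mod_cast hm₀
  have hN1 : (1 : ℝ) ≤ (m₀ : ℝ) ^ 2 := one_le_sq hm₀
  have hN0 : (0 : ℝ) < (m₀ : ℝ) ^ 2 := by linarith
  have hpi := Real.pi_pos
  -- the direction
  obtain ⟨X, N, hN, hxO, hx⟩ := gen Q (O := {x : Fin 20 → ℝ |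
      bf G (lam G μ₀ + (m₀ : ℝ) • x) (lam G μ₀ + (m₀ : ℝ) • x) < min ρ δ}) (by
    refine isOpen_lt ?_ continuous_const
    exact bf_contR G (by fun_prop) (by fun_prop)) ⟨(-(1 / (m₀ : ℝ))) • lam G μ₀, by
    show bf G (lam G μ₀ + (m₀ : ℝ) • ((-(1 / (m₀ : ℝ))) • lam G μ₀))
      (lam G μ₀ + (m₀ : ℝ) • ((-(1 / (m₀ : ℝ))) • lam G μ₀)) < min ρ δ
    have : lam G μ₀ + (m₀ : ℝ) • ((-(1 / (m₀ : ℝ))) • lam G μ₀) = 0 := by
      rw [smul_smul]
      have : (m₀ : ℝ) * -(1 / (m₀ : ℝ)) = -1 := by field_simp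
      rw [this, neg_one_smul, add_neg_cancel]
    rw [this, bf_zero_left]
    exact lt_min hρ hδ⟩
  set x : Fin 20 → ℝ := xr X N with hxdef
  have hx' : Gn Q x := hx
  have hxρ : bf G (lam G μ₀ + (m₀ : ℝ) • x) (lam G μ₀ + (m₀ : ℝ) • x) < ρ :=
    lt_of_lt_of_le hxO (min_le_left _ _)
  have hxδ : bf G (lam G μ₀ + (m₀ : ℝ) • x) (lam G μ₀ + (m₀ : ℝ) • x) < δ :=
    lt_of_lt_of_le hxO (min_le_right _ _)
  set q : ℝ := bf G x x with hq
  have hq0 : 0 ≤ q := h.nonneg _
  set θ : ℝ := η - δ with hθ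
  have hθ0 : 0 < θ := by rw [hθ]; linarith
  have hθ'0 : 0 < η - 2 * δ := by linarith
  -- constants
  obtain ⟨MF, hMF1, hMF⟩ := slice_bound hKD h H.tf X hN 0 hθ0
  obtain ⟨cl, al, Tl, hcl, hlow⟩ := phi_lower hKD h H X hN 0
    (fun τ hτ => sl_not_mir hQ hx' 0 hτ)
  -- the possible arguments
  set K0 : ℕ := m₀.natAbs with hK0
  have hK0pos : 0 < K0 := Int.natAbs_pos.2 hm₀
  set E : Finset ℂ := (Polynomial.nthRoots K0 (1 : ℂ)).toFinset with hE
  have hEcard : E.card < m := by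
    refine lt_of_le_of_lt ((Multiset.toFinset_card_le _).trans (Polynomial.card_nthRoots _ _)) ?_
    have : ((K0 : ℕ) : ℤ) = |m₀| := Int.natCast_natAbs m₀
    omega
  have hEmem : ∀ ε : ℂ, ε ∈ E ↔ ε ^ K0 = 1 := by
    intro ε
    rw [hE, Multiset.mem_toFinset, Polynomial.mem_nthRoots hK0pos]
  have hEnorm : ∀ ε ∈ E, ‖ε‖ = 1 := fun ε hε =>
    Complex.norm_eq_one_of_pow_eq_one ((hEmem ε).1 hε) hK0pos.ne'
  obtain ⟨K, hK, hVD'⟩ := hVD m E hEcard hEnorm
  -- the constants A, B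
  set A : ℝ := Real.log MF - Real.log cl with hA
  set B : ℝ := 2 * Real.pi * (θ + q / 2) * C + al with hB
  obtain ⟨T, hT0, hT1, hT⟩ := exists_large A B K (Real.pi * δ)
    (max (max Tl (1 + 1 / (η - 2 * δ))) (1 / (Real.pi * δ))) (by positivity) hK
  have hTpos : 0 < T := by linarith
  have hTl : Tl ≤ T := ((le_max_left _ _).trans (le_max_left _ _)).trans hT0
  have hTθ : 1 + 1 / (η - 2 * δ) ≤ T := ((le_max_right _ _).trans (le_max_left _ _)).trans hT0
  have hTδ : 1 / (Real.pi * δ) ≤ T := (le_max_right _ _).trans hT0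
  set τ : ℂ := (T : ℂ) * Complex.I with hτdef
  have hτim : τ.im = T := by simp [hτdef]
  have hτ0 : 0 < τ.im := by rw [hτim]; exact hTpos
  set p : ℂ × (Fin 20 → ℂ) := sl x 0 τ with hp
  have hpU : p ∈ UP := sl_mem x 0 hτ0
  have hpm : p ∉ Mir G := sl_not_mir hQ hx' 0 hτ0
  have h0 : φ C p ≠ 0 := leading_ne_zero h H.tf H.fd H.hC H.hne hpU hpm
  set v : ℝ := T * (θ + q / 2) with hv
  have hbh : bh G p = T * (q / 2) := by rw [hp, bh_sl x 0 hτ0, hτim]
  have hbv : bh G p < v := by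
    rw [hbh, hv]
    nlinarith
  set R : ℝ := Real.exp (-(2 * Real.pi * v)) with hR
  have hR0 : 0 < R := Real.exp_pos _
  have hRC : (R : ℂ) ≠ 0 := by exact_mod_cast hR0.ne'
  have hRnorm : ‖(R : ℂ)‖ = R := by
    rw [Complex.norm_real, Real.norm_eq_abs, abs_of_pos hR0]
  have hRR : R < Real.exp (-(2 * Real.pi * bh G p)) := by
    rw [hR, Real.exp_lt_exp]
    nlinarith
  -- the zero on the highest wall
  set ω₀ : ℂ := -((b₀ : ℂ) + n₀ * p.1 + dt μ₀ p.2) / m₀ with hω₀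
  have hWE : WEq G 0 b₀ m₀ n₀ μ₀ (ω₀, p) := by
    unfold WEq
    simp only [hω₀]
    push_cast
    field_simp
    ring
  have hid := height_id h (W := (ω₀, p)) (by exact hτ0) hWE
  have hxpp : xp p = x := xp_sl x 0 hτ0
  simp only [hxpp] at hid
  set t₀ : ℝ := ht G (ω₀, p) with ht₀
  have ht₀' : η - δ / 2 < t₀ := by
    have h1 : nu G 0 b₀ m₀ n₀ μ₀ = (m₀ : ℝ) ^ 2 * η := by
      rw [hη, mul_div_cancel₀ _ hN0.ne']
    rw [h1] at hid
    have h2 : (m₀ : ℝ) ^ 2 * (η - t₀) < δ / 2 := by linarith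
    by_contra hc
    push Not at hc
    have h3 : δ / 2 ≤ η - t₀ := by linarith
    nlinarith
  have himω₀ : ω₀.im = T * (t₀ + q / 2) := by
    have h1 : t₀ = ω₀.im / τ.im - q / 2 := ht_sl x 0 hτ0 ω₀
    rw [hτim] at h1
    rw [h1]
    field_simp
    ring
  have hWm : (ω₀, p) ∈ Hd G := by
    rw [hp, mem_Hd_sl x 0 hτ0]
    show 0 < t₀
    linarith
  have hF0 : F (ω₀, p) = 0 := ha₀.2.2.2 _ hWm hWE
  set a : ℂ := ee ω₀ / R with ha
  have hanorm : ‖a‖ ≤ Real.exp (-(Real.pi * δ * T)) := by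
    rw [ha, norm_div, norm_ee, hRnorm, himω₀, hR, ← Real.exp_sub]
    apply Real.exp_le_exp.2
    rw [hv, hθ]
    have h1 : Real.pi * (T * (δ / 2)) ≤ Real.pi * (T * (t₀ - (η - δ))) := by
      gcongr
      linarith
    nlinarith
  have ha0 : 0 < ‖a‖ := by
    rw [norm_pos_iff, ha]
    exact div_ne_zero (ee_ne_zero _) hRC
  have ha12 : ‖a‖ ≤ 1 / 2 := by
    refine hanorm.trans ?_
    have h1 : 1 ≤ Real.pi * δ * T := by
      rw [div_le_iff₀ (by positivity)] at hTδ
      linarith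
    calc Real.exp (-(Real.pi * δ * T)) ≤ Real.exp (-1) := Real.exp_le_exp.2 (by linarith)
      _ ≤ 1 / 2 := by
        rw [Real.exp_neg, one_div]
        apply inv_anti₀ (by norm_num)
        have := Real.add_one_le_exp (1 : ℝ)
        linarith
  -- the functions
  have hmaps : MapsTo (fun s : ℂ => (R : ℂ) * s)
      (Metric.ball 0 (Real.exp (-(2 * Real.pi * bh G p)) / R))
      (Metric.ball 0 (Real.exp (-(2 * Real.pi * bh G p)))) := by
    intro s hs
    rw [Metric.mem_ball, dist_zero_right] at hs ⊢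
    rw [norm_mul, hRnorm]
    rw [lt_div_iff₀ hR0] at hs
    linarith
  have hsub : Metric.closedBall (0 : ℂ) 1 ⊆
      Metric.ball 0 (Real.exp (-(2 * Real.pi * bh G p)) / R) := by
    apply Metric.closedBall_subset_ball
    rw [lt_div_iff₀ hR0, one_mul]
    exact hRR
  have hgan : AnalyticOnNhd ℂ (fun s : ℂ => gp φ C m p ((R : ℂ) * s)) (Metric.closedBall 0 1) := by
    refine (DifferentiableOn.analyticOnNhd ?_ Metric.isOpen_ball).mono hsub
    exact (H.gp_diff hpU).comp (by fun_prop) hmaps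
  have hhan : AnalyticOnNhd ℂ (fun s : ℂ => (R : ℂ) ^ m * (Hs φ C m p ((R : ℂ) * s) / φ C p))
      (Metric.closedBall 0 1) := by
    refine (DifferentiableOn.analyticOnNhd ?_ Metric.isOpen_ball).mono hsub
    have h1 : DifferentiableOn ℂ (fun s : ℂ => Hs φ C m p ((R : ℂ) * s))
        (Metric.ball 0 (Real.exp (-(2 * Real.pi * bh G p)) / R)) :=
      (H.Hs_diff hpU).comp (by fun_prop) hmaps
    exact (h1.div_const _).const_mul _
  have hVDc := hVD' (fun s : ℂ => gp φ C m p ((R : ℂ) * s))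
    (fun s : ℂ => (R : ℂ) ^ m * (Hs φ C m p ((R : ℂ) * s) / φ C p)) a (A + B * T) ha0 ha12
    hgan hhan (by
      intro s _
      simp only [gp]
      rw [mul_pow]
      ring) (by
      -- the bound
      intro s hs
      rw [Metric.mem_closedBall, dist_zero_right] at hs
      have hRs : ‖(R : ℂ) * s‖ ≤ Real.exp (-(2 * Real.pi * v)) := by
        rw [norm_mul, hRnorm, ← hR]
        nlinarith
      have h1 := H.gp_bound hpU h0 hbv (M := MF) (fun ω hω => hMF τ ω (by rw [hτim]; exact hT1) (by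
        rw [hτim, hω, hv])) hRs
      refine h1.trans ?_
      have h2 := hlow τ (by rw [hτim]; exact hTl)
      rw [hτim] at h2
      have h3 : cl * Real.exp (-(al * T)) ≤ ‖φ C p‖ := h2
      have h4 : 0 < cl * Real.exp (-(al * T)) := by positivity
      calc MF * Real.exp (2 * Real.pi * v * C) / ‖φ C p‖ ≤
          MF * Real.exp (2 * Real.pi * v * C) / (cl * Real.exp (-(al * T))) := by gcongr
        _ = Real.exp (A + B * T) := by
          have e1 : MF = Real.exp (Real.log MF) := (Real.exp_log (by linarith)).symm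
          have e2 : cl = Real.exp (Real.log cl) := (Real.exp_log hcl).symm
          rw [e1, e2, ← Real.exp_add, ← Real.exp_add, ← Real.exp_sub]
          congr 1
          rw [hA, hB, hv]
          ring) (by
      -- zeros
      intro s hs hgs
      rw [Metric.mem_closedBall, dist_zero_right] at hs
      have hgs' : gp φ C m p ((R : ℂ) * s) = 0 := hgs
      have hs0 : s ≠ 0 := by
        rintro rfl
        rw [mul_zero] at hgs'
        simp [gp, H.hm.ne'] at hgs'
      have hRs0 : (R : ℂ) * s ≠ 0 := mul_ne_zero hRC hs0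
      obtain ⟨ω, hω, him⟩ := exists_ee hRs0
      have hvω : v ≤ ω.im := by
        rw [him, le_div_iff₀ (by positivity)]
        have h1 : ‖(R : ℂ) * s‖ ≤ R := by
          rw [norm_mul, hRnorm]
          nlinarith
        have h2 := Real.log_le_log (norm_pos_iff.2 hRs0) h1
        rw [hR, Real.log_exp] at h2
        linarith
      have hFω : F (ω, p) = 0 := by
        have h1 := H.gp_eq hpU h0 (lt_of_lt_of_le hbv hvω)
        rw [hω, hgs'] at h1
        have h2 := (div_eq_zero_iff.1 h1.symm).resolve_right h0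
        exact (mul_eq_zero.1 h2).resolve_right (ee_ne_zero _)
      have hω' : τ.im * ((η - 2 * δ) + bf G x x / 2) < ω.im := by
        refine lt_of_lt_of_le ?_ hvω
        rw [hτim, hv, hθ, ← hq]
        nlinarith
      obtain ⟨b₁, m₁, n₁, μ₁, ha₁, he₁, hn₁⟩ := zero_act hPR h H.tf hZ hQ hx' 0 hθ'0
        (by rw [hτim]; exact hTθ) hω' hFω
      have hht := (ht_sl_lt (G := G) x 0 hτ0).1 hω'
      have hm₁ : (0 : ℝ) < (m₁ : ℝ) ^ 2 := by
        have : (m₁ : ℝ) ≠ 0 := by exact_mod_cast ha₁.1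
        positivity
      obtain ⟨j, hj1, hj2, hj3⟩ := hpar x hxρ.le b₁ m₁ n₁ μ₁ ha₁ (by
        rw [hn₁]
        have := mul_lt_mul_of_pos_left hht hm₁
        linarith)
      refine ⟨ee (ω - ω₀), ?_, ?_⟩
      · rw [hEmem]
        have e1 : (m₀ : ℂ) * (ω - ω₀) = ((b₀ - j * b₁ : ℤ) : ℂ) := by
          have hdt : dt μ₀ p.2 = (j : ℂ) * dt μ₁ p.2 := by
            unfold dt
            rw [Finset.mul_sum]
            refine Finset.sum_congr rfl fun i _ => ?_
            rw [hj2 i]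
            push_cast
            ring
          have h1 : (b₁ : ℂ) + m₁ * ω + n₁ * p.1 + dt μ₁ p.2 = 0 := by
            have := he₁
            unfold WEq at this
            simpa using this
          have h2 : (b₀ : ℂ) + m₀ * ω₀ + n₀ * p.1 + dt μ₀ p.2 = 0 := by
            have := hWE
            unfold WEq at this
            simpa using this
          rw [hdt] at h2
          have hj1' : (m₀ : ℂ) = j * m₁ := by rw [hj1]; push_cast; rfl
          have hj3' : (n₀ : ℂ) = j * n₁ := by rw [hj3]; push_cast; rfl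
          push_cast
          rw [hj3'] at h2
          have h3 : (m₀ : ℂ) * ω = j * (m₁ * ω) := by rw [hj1']; ring
          linear_combination (j : ℂ) * h1 - h2 + h3
        have e2 : ee ((m₀ : ℂ) * (ω - ω₀)) = 1 := by rw [e1, ee_int]
        rw [← ee_pow]
        rcases Int.natAbs_eq m₀ with h3 | h3
        · have h4 : ((K0 : ℕ) : ℂ) = (m₀ : ℂ) := by
            have : ((K0 : ℤ) : ℂ) = (m₀ : ℂ) := by rw [hK0, ← h3]
            simpa using this
          rw [h4, e2]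
        · have h4 : ((K0 : ℕ) : ℂ) = -(m₀ : ℂ) := by
            have : ((K0 : ℤ) : ℂ) = ((-m₀ : ℤ) : ℂ) := by rw [hK0]; congr 1; omega
            simpa using this
          rw [h4, neg_mul, ee_neg, e2, inv_one]
      · have e1 : (R : ℂ) * s = ee ω₀ * ee (ω - ω₀) := by
          rw [← ee_add, add_sub_cancel, hω]
        rw [ha, div_mul_eq_mul_div, ← e1]
        field_simp) (by
      refine ⟨a, ?_, ?_⟩
      · rw [Metric.mem_closedBall, dist_zero_right]
        linarith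
      · show gp φ C m p ((R : ℂ) * a) = 0
        have e1 : (R : ℂ) * a = ee ω₀ := by
          rw [ha]
          field_simp
        rw [e1, H.gp_eq hpU h0 hWm.2, hF0]
        simp)
  -- contradiction
  have h1 : K * (A + B * T) * ‖a‖ < 1 := by
    rcases le_or_gt (A + B * T) 0 with h2 | h2
    · have : K * (A + B * T) * ‖a‖ ≤ 0 :=
        mul_nonpos_of_nonpos_of_nonneg (mul_nonpos_of_nonneg_of_nonpos hK.le h2) ha0.le
      linarith
    · refine lt_of_le_of_lt ?_ hT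
      gcongr
  linarith

end

end Pool.Agent.Q248.RL
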